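import Mathlib

namespace Pool.Agent.P.MP_f1a348_lc

/-- The colours available after `t` rounds of the `k`-dimensional Weisfeiler-Leman algorithm. -/
def Colour (k : ℕ) : ℕ → Type
  | 0 => Fin k → Fin k → Prop × Prop
  | t + 1 => Colour k t × Multiset ((Fin k → Prop × Prop) × (Fin k → Colour k t))

/-- The colour of the `k`-tuple `u` of vertices of `G` after `t` rounds.
Round `0`: the atomic type of `u` (which entries are equal, which are adjacent).
Round `t + 1`: the old colour together with the multiset, over all vertices `w`, of the
equalities and adjacencies between `w` and the entries of `u` and of the old colours of the `k`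
tuples obtained from `u` by writing `w` in one position. -/
def wlColour {V : Type} [Fintype V] (G : SimpleGraph V) (k : ℕ) :
    (t : ℕ) → (Fin k → V) → Colour k t
  | 0, u => fun i j => (u i = u j, G.Adj (u i) (u j))
  | t + 1, u => (wlColour G k t u, Finset.univ.val.map fun w : V =>
      (fun i => (u i = w, G.Adj (u i) w), fun i => wlColour G k t (Function.update u i w)))

/-- `k`-dimensional Weisfeiler-Leman distinguishes `G` and `H`: after some number of rounds the
multisets of colours of all `k`-tuples differ. -/
def WLDistinguishes {n : ℕ} (k : ℕ) (G H : SimpleGraph (Fin n)) : Prop :=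
  ∃ t : ℕ, (Finset.univ : Finset (Fin k → Fin n)).val.map (wlColour G k t) ≠
    (Finset.univ : Finset (Fin k → Fin n)).val.map (wlColour H k t)

end Pool.Agent.P.MP_f1a348_lc
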