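import Mathlib
import Pool.Agent.P.MP_f1a348_lc.WLDefs

namespace Pool.Agent.P.MP_f1a348_lc

open Finset

/-- A winning strategy of Duplicator in the bijective pebble game. -/
structure Bisim {α β : Type} (G : SimpleGraph α) (H : SimpleGraph β) (k : ℕ)
    (R : (Fin k → α) → (Fin k → β) → Prop) : Prop where
  atom : ∀ u v, R u v → ∀ i j, (u i = u j ↔ v i = v j) ∧ (G.Adj (u i) (u j) ↔ H.Adj (v i) (v j))
  step : ∀ u v, R u v → ∃ f : α ≃ β, ∀ w, ∀ i, (u i = w ↔ v i = f w) ∧
    (G.Adj (u i) w ↔ H.Adj (v i) (f w)) ∧ R (Function.update u i w) (Function.update v i (f w))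
  start : ∃ F : (Fin k → α) ≃ (Fin k → β), ∀ u, R u (F u)

theorem Bisim.colour_eq {α β : Type} [Fintype α] [Fintype β] {G : SimpleGraph α}
    {H : SimpleGraph β} {k : ℕ} {R : (Fin k → α) → (Fin k → β) → Prop} (hB : Bisim G H k R) :
    ∀ (t : ℕ) u v, R u v → wlColour G k t u = wlColour H k t v
  | 0, u, v, h => by
    funext i j
    exact Prod.ext (propext (hB.atom u v h i j).1) (propext (hB.atom u v h i j).2)
  | t + 1, u, v, h => by
    obtain ⟨f, hf⟩ := hB.step u v h
    refine Prod.ext (hB.colour_eq t u v h) ?_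
    show Multiset.map _ _ = Multiset.map _ _
    have e : (univ : Finset β).val = (univ : Finset α).val.map f := by
      rw [← Finset.map_univ_equiv f]
      rfl
    rw [e, Multiset.map_map]
    refine Multiset.map_congr rfl fun w _ => ?_
    refine Prod.ext ?_ ?_
    · funext i
      exact Prod.ext (propext (hf w i).1) (propext (hf w i).2.1)
    · funext i
      exact hB.colour_eq t _ _ (hf w i).2.2

/-- Transport of a strategy to graphs on `Fin n`. -/
theorem Bisim.not_distinguishes {α : Type} {n : ℕ} (e : Fin n ≃ α) {G H : SimpleGraph α} {k : ℕ}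
    {R : (Fin k → α) → (Fin k → α) → Prop} (hB : Bisim G H k R) :
    ¬ WLDistinguishes k (G.comap e) (H.comap e) := by
  have hB' : Bisim (G.comap e) (H.comap e) k (fun u v => R (e ∘ u) (e ∘ v)) := by
    refine ⟨?_, ?_, ?_⟩
    · intro u v h i j
      have := hB.atom _ _ h i j
      simpa using this
    · intro u v h
      obtain ⟨f, hf⟩ := hB.step _ _ h
      refine ⟨(e.trans f).trans e.symm, fun w i => ?_⟩
      obtain ⟨h1, h2, h3⟩ := hf (e w) i
      refine ⟨?_, ?_, ?_⟩
      · simp only [Function.comp, EmbeddingLike.apply_eq_iff_eq] at h1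
        simp only [Equiv.trans_apply]
        rw [h1, Equiv.eq_symm_apply]
      · simpa using h2
      · simpa [Function.comp_update] using h3
    · obtain ⟨F, hF⟩ := hB.start
      refine ⟨((Equiv.arrowCongr (Equiv.refl _) e).trans F).trans
        (Equiv.arrowCongr (Equiv.refl _) e.symm), fun u => ?_⟩
      have := hF (e ∘ u)
      convert this using 1
      funext i
      simp [Equiv.arrowCongr]
  rintro ⟨t, ht⟩
  apply ht
  obtain ⟨F, hF⟩ := hB'.start
  have e' : (univ : Finset (Fin k → Fin n)).val = (univ : Finset (Fin k → Fin n)).val.map F := by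
    conv_lhs => rw [← Finset.map_univ_equiv F]
    rfl
  conv_rhs => rw [e', Multiset.map_map]
  exact Multiset.map_congr rfl fun u _ => hB'.colour_eq t _ _ (hF u)

end Pool.Agent.P.MP_f1a348_lc
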