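import Mathlib

/-!
The layered graph attached to a graph `G` on `Fin n`, and the proof that it determines `G` up to
isomorphism.
-/

namespace Pool.Agent.P.MP_f1a348_lc

/-- darts (with two dummy darts at every vertex) -/
abbrev Dart (n : ℕ) := Fin n × Fin (n + 2)

/-- the relation between layer `k` and layer `k+1` -/
def Gap {n : ℕ} (G : SimpleGraph (Fin n)) (K k : ℕ) (d e : Dart n) : Prop :=
  d = e ∨ (k = 0 ∧ d.1 = e.1) ∨
    (k = K ∧ G.Adj d.1 e.1 ∧ (d.2 : ℕ) = e.1 ∧ (e.2 : ℕ) = d.1)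

theorem Gap.symm {n : ℕ} {G : SimpleGraph (Fin n)} {K k : ℕ} {d e : Dart n}
    (h : Gap G K k d e) : Gap G K k e d := by
  rcases h with h | ⟨h1, h2⟩ | ⟨h1, h2, h3, h4⟩
  · exact Or.inl h.symm
  · exact Or.inr (Or.inl ⟨h1, h2.symm⟩)
  · exact Or.inr (Or.inr ⟨h1, h2.symm, h4, h3⟩)

/-- the vertices of the layered graph -/
abbrev Vtx (n K : ℕ) := Fin (K + 2) × Dart n

/-- the layered graph -/
def layered {n : ℕ} (G : SimpleGraph (Fin n)) (K : ℕ) : SimpleGraph (Vtx n K) where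
  Adj x y := (x.1 = y.1 ∧ x.2 ≠ y.2) ∨ ((y.1 : ℕ) = x.1 + 1 ∧ Gap G K x.1 x.2 y.2) ∨
    ((x.1 : ℕ) = y.1 + 1 ∧ Gap G K y.1 x.2 y.2)
  symm := ⟨by
    rintro x y (⟨h1, h2⟩ | ⟨h1, h2⟩ | ⟨h1, h2⟩)
    · exact Or.inl ⟨h1.symm, h2.symm⟩
    · exact Or.inr (Or.inr ⟨h1, h2.symm⟩)
    · exact Or.inr (Or.inl ⟨h1, h2.symm⟩)⟩
  loopless := ⟨by
    rintro x (⟨-, h2⟩ | ⟨h1, -⟩ | ⟨h1, -⟩)
    · exact h2 rfl
    · omega
    · omega⟩

theorem layered_adj {n K : ℕ} {G : SimpleGraph (Fin n)} {x y : Vtx n K} :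
    (layered G K).Adj x y ↔ (x.1 = y.1 ∧ x.2 ≠ y.2) ∨
      ((y.1 : ℕ) = x.1 + 1 ∧ Gap G K x.1 x.2 y.2) ∨
      ((x.1 : ℕ) = y.1 + 1 ∧ Gap G K y.1 x.2 y.2) := Iff.rfl

theorem adj_up {n K : ℕ} {G : SimpleGraph (Fin n)} {x y : Vtx n K} (h : (y.1 : ℕ) = x.1 + 1) :
    (layered G K).Adj x y ↔ Gap G K x.1 x.2 y.2 := by
  rw [layered_adj]
  constructor
  · rintro (⟨h1, -⟩ | ⟨-, h2⟩ | ⟨h1, -⟩)
    · have := congrArg Fin.val h1; omega
    · exact h2
    · omega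
  · exact fun h2 => Or.inr (Or.inl ⟨h, h2⟩)

theorem adj_layer {n K : ℕ} {G : SimpleGraph (Fin n)} {x y : Vtx n K}
    (h : (layered G K).Adj x y) : (y.1 : ℕ) ≤ x.1 + 1 := by
  rcases h with ⟨h1, -⟩ | ⟨h1, -⟩ | ⟨h1, -⟩
  · have := congrArg Fin.val h1; omega
  · omega
  · omega

/-- closed twins -/
def Twin {V : Type} (Γ : SimpleGraph V) (x y : V) : Prop :=
  Γ.Adj x y ∧ ∀ z, z ≠ x → z ≠ y → (Γ.Adj x z ↔ Γ.Adj y z)

theorem Twin.map {V W : Type} {Γ : SimpleGraph V} {Δ : SimpleGraph W} (φ : Γ ≃g Δ) {x y : V}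
    (h : Twin Γ x y) : Twin Δ (φ x) (φ y) := by
  refine ⟨φ.map_rel_iff.2 h.1, fun z h1 h2 => ?_⟩
  obtain ⟨w, rfl⟩ := φ.surjective z
  rw [φ.map_rel_iff, φ.map_rel_iff]
  exact h.2 w (fun e => h1 (by rw [e])) (fun e => h2 (by rw [e]))

theorem Twin.symm {V : Type} {Γ : SimpleGraph V} {x y : V} (h : Twin Γ x y) : Twin Γ y x :=
  ⟨h.1.symm, fun z h1 h2 => (h.2 z h2 h1).symm⟩

theorem twin_zero {n K : ℕ} (hK : 2 ≤ K) {G : SimpleGraph (Fin n)} {x y : Vtx n K}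
    (hx : (x.1 : ℕ) = 0) (hy : (y.1 : ℕ) = 0) (h1 : x.2.1 = y.2.1) (h2 : x.2 ≠ y.2) :
    Twin (layered G K) x y := by
  refine ⟨Or.inl ⟨Fin.ext (by omega), h2⟩, fun z hz1 hz2 => ?_⟩
  have key : ∀ x y : Vtx n K, (x.1 : ℕ) = 0 → (y.1 : ℕ) = 0 → x.2.1 = y.2.1 → z ≠ y →
      (layered G K).Adj x z → (layered G K).Adj y z := by
    intro x y hx hy h1 hz h
    rcases h with ⟨h3, -⟩ | ⟨h3, h4⟩ | ⟨h3, -⟩
    · have h5 : y.1 = z.1 := Fin.ext (by have := congrArg Fin.val h3; omega)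
      exact Or.inl ⟨h5, fun e => hz (Prod.ext h5.symm e.symm)⟩
    · refine Or.inr (Or.inl ⟨by omega, Or.inr (Or.inl ⟨hy, ?_⟩)⟩)
      rcases h4 with h4 | ⟨-, h4⟩ | ⟨h4, -⟩
      · rw [← h1, h4]
      · rw [← h1, h4]
      · omega
    · omega
  exact ⟨key x y hx hy h1 hz2, key y x hy hx h1.symm hz1⟩

theorem twin_layer {n K : ℕ} (hK : 2 ≤ K) {G : SimpleGraph (Fin n)} {x y : Vtx n K}
    (h : Twin (layered G K) x y) : x.1 = y.1 := by
  have key : ∀ x y : Vtx n K, Twin (layered G K) x y → (y.1 : ℕ) ≠ x.1 + 1 := by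
    intro x y h e
    by_cases hy : (y.1 : ℕ) + 1 < K + 2
    · have h1 : (layered G K).Adj y (⟨y.1 + 1, hy⟩, y.2) := (adj_up rfl).2 (Or.inl rfl)
      have h2 := (h.2 (⟨y.1 + 1, hy⟩, y.2)
        (fun e' => by have := congrArg (fun v : Vtx n K => (v.1 : ℕ)) e'; simp at this; omega)
        (fun e' => by have := congrArg (fun v : Vtx n K => (v.1 : ℕ)) e'; simp at this)).2 h1
      have := adj_layer h2
      simp at this; omega
    · have hx : (x.1 : ℕ) - 1 < K + 2 := by omega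
      have h1 : (layered G K).Adj (⟨x.1 - 1, hx⟩, x.2) x :=
        (adj_up (by simp; omega)).2 (Or.inl rfl)
      have h2 := (h.2 (⟨x.1 - 1, hx⟩, x.2)
        (fun e' => by have := congrArg (fun v : Vtx n K => (v.1 : ℕ)) e'; simp at this; omega)
        (fun e' => by have := congrArg (fun v : Vtx n K => (v.1 : ℕ)) e'; simp at this; omega)).1
        h1.symm
      have := adj_layer h2.symm
      simp at this; omega
  rcases h.1 with ⟨h1, -⟩ | ⟨h1, -⟩ | ⟨h1, -⟩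
  · exact h1
  · exact absurd h1 (key x y h)
  · exact absurd h1 (key y x h.symm)

theorem twin_rev {n K : ℕ} (hK : 2 ≤ K) {G : SimpleGraph (Fin n)} {x y : Vtx n K}
    (h : Twin (layered G K) x y) (hx : (x.1 : ℕ) ≠ 0) :
    (x.2.2 : ℕ) = y.2.1 ∧ (y.2.2 : ℕ) = x.2.1 := by
  have h0 := twin_layer hK h
  have h0' := congrArg Fin.val h0
  have hne : x.2 ≠ y.2 := fun e => h.1.ne (Prod.ext h0 e)
  by_cases h1 : (x.1 : ℕ) = 1
  · have hy : (x.1 : ℕ) + 1 < K + 2 := by omega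
    have h1 : (layered G K).Adj x (⟨x.1 + 1, hy⟩, x.2) := (adj_up rfl).2 (Or.inl rfl)
    have h2 := (h.2 (⟨x.1 + 1, hy⟩, x.2)
      (fun e' => by have := congrArg (fun v : Vtx n K => (v.1 : ℕ)) e'; simp at this)
      (fun e' => by have := congrArg (fun v : Vtx n K => (v.1 : ℕ)) e'; simp at this; omega)).1 h1
    rw [adj_up (by simp; omega)] at h2
    rcases h2 with h2 | ⟨h2, -⟩ | ⟨h2, -⟩
    · exact absurd h2.symm hne
    · omega
    · omega
  · have hy : (x.1 : ℕ) - 1 < K + 2 := by omega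
    have h1 : (layered G K).Adj (⟨x.1 - 1, hy⟩, x.2) x :=
      (adj_up (by simp; omega)).2 (Or.inl rfl)
    have h2 := (h.2 (⟨x.1 - 1, hy⟩, x.2)
      (fun e' => by have := congrArg (fun v : Vtx n K => (v.1 : ℕ)) e'; simp at this; omega)
      (fun e' => by have := congrArg (fun v : Vtx n K => (v.1 : ℕ)) e'; simp at this; omega)).1
      h1.symm
    have h3 := h2.symm
    rw [adj_up (by simp; omega)] at h3
    rcases h3 with h2 | ⟨h2, -⟩ | ⟨-, -, h2, h3⟩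
    · exact absurd h2 hne
    · simp at h2; omega
    · exact ⟨h2, h3⟩

theorem map_zero {n K : ℕ} (hK : 2 ≤ K) {G H : SimpleGraph (Fin n)}
    (φ : layered G K ≃g layered H K) {x : Vtx n K} (hx : (x.1 : ℕ) = 0) :
    ((φ x).1 : ℕ) = 0 := by
  by_contra h
  have hn : 0 < n := x.2.1.pos
  obtain ⟨a, b, hab, ha, hb⟩ : ∃ a b : Fin (n + 2), a ≠ b ∧ a ≠ x.2.2 ∧ b ≠ x.2.2 := by
    by_cases h0 : (x.2.2 : ℕ) = 0
    · exact ⟨⟨1, by omega⟩, ⟨2, by omega⟩, by simp, fun e => by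
        have := congrArg Fin.val e; simp at this; omega, fun e => by
        have := congrArg Fin.val e; simp at this; omega⟩
    · by_cases h1 : (x.2.2 : ℕ) = 1
      · exact ⟨⟨0, by omega⟩, ⟨2, by omega⟩, by simp, fun e => by
          have := congrArg Fin.val e; simp at this; omega, fun e => by
          have := congrArg Fin.val e; simp at this; omega⟩
      · exact ⟨⟨0, by omega⟩, ⟨1, by omega⟩, by simp, fun e => by
          have := congrArg Fin.val e; simp at this; omega, fun e => by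
          have := congrArg Fin.val e; simp at this; omega⟩
  have t1 : Twin (layered G K) x (x.1, x.2.1, a) :=
    twin_zero hK hx hx rfl (fun e => ha (congrArg Prod.snd e).symm)
  have t2 : Twin (layered G K) x (x.1, x.2.1, b) :=
    twin_zero hK hx hx rfl (fun e => hb (congrArg Prod.snd e).symm)
  have s1 := t1.map φ
  have s2 := t2.map φ
  have l1 := twin_layer hK s1
  have l2 := twin_layer hK s2
  obtain ⟨r1, r2⟩ := twin_rev hK s1 h
  obtain ⟨r3, r4⟩ := twin_rev hK s2 h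
  have : φ (x.1, x.2.1, a) = φ (x.1, x.2.1, b) :=
    Prod.ext (l1.symm.trans l2) (Prod.ext (Fin.ext (by omega)) (Fin.ext (by omega)))
  have := φ.injective this
  exact hab (congrArg (fun v : Vtx n K => v.2.2) this)

theorem map_le {n K : ℕ} (hK : 2 ≤ K) {G H : SimpleGraph (Fin n)}
    (φ : layered G K ≃g layered H K) (k : ℕ) : ∀ x : Vtx n K, (x.1 : ℕ) = k →
    ((φ x).1 : ℕ) ≤ k := by
  induction k with
  | zero => exact fun x hx => (map_zero hK φ hx).le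
  | succ k ih =>
    intro x hx
    have hk : k < K + 2 := by have := x.1.2; omega
    have h1 : (layered G K).Adj (⟨k, hk⟩, x.2) x := (adj_up hx).2 (Or.inl rfl)
    have h2 := adj_layer (φ.map_rel_iff.2 h1)
    have h3 := ih (⟨k, hk⟩, x.2) rfl
    omega

theorem map_layer {n K : ℕ} (hK : 2 ≤ K) {G H : SimpleGraph (Fin n)}
    (φ : layered G K ≃g layered H K) (x : Vtx n K) : (φ x).1 = x.1 := by
  have h1 := map_le hK φ _ x rfl
  have h2 := map_le hK φ.symm _ (φ x) rfl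
  rw [φ.symm_apply_apply] at h2
  exact Fin.ext (by omega)

theorem map_dart {n K : ℕ} (hK : 2 ≤ K) {G H : SimpleGraph (Fin n)}
    (φ : layered G K ≃g layered H K) (d : Dart n) (k : ℕ) (hk : k + 1 ≤ K) :
    (φ (⟨k + 1, by omega⟩, d)).2 = (φ (⟨1, by omega⟩, d)).2 := by
  induction k with
  | zero => rfl
  | succ k ih =>
    rw [← ih (by omega)]
    have h1 : (layered G K).Adj (⟨k + 1, by omega⟩, d) (⟨k + 1 + 1, by omega⟩, d) :=
      (adj_up rfl).2 (Or.inl rfl)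
    have h2 := φ.map_rel_iff.2 h1
    rw [adj_up (by rw [map_layer hK, map_layer hK]), map_layer hK] at h2
    rcases h2 with h2 | ⟨h2, -⟩ | ⟨h2, -⟩
    · exact h2.symm
    · simp at h2
    · simp at h2; omega

/-- the map induced on the vertices of `G` -/
def vmap {n K : ℕ} {G H : SimpleGraph (Fin n)} (φ : layered G K ≃g layered H K) (i : Fin n) :
    Fin n := (φ (⟨1, by omega⟩, i, 0)).2.1

theorem vmap_eq {n K : ℕ} (hK : 2 ≤ K) {G H : SimpleGraph (Fin n)}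
    (φ : layered G K ≃g layered H K) (d : Dart n) :
    (φ (⟨1, by omega⟩, d)).2.1 = vmap φ d.1 := by
  have key : ∀ e : Dart n, e.1 = d.1 →
      (φ (⟨0, by omega⟩, d)).2.1 = (φ (⟨1, by omega⟩, e)).2.1 := by
    intro e he
    have h1 : (layered G K).Adj (⟨0, by omega⟩, d) (⟨1, by omega⟩, e) :=
      (adj_up rfl).2 (Or.inr (Or.inl ⟨rfl, he.symm⟩))
    have h2 := φ.map_rel_iff.2 h1
    rw [adj_up (by rw [map_layer hK, map_layer hK]), map_layer hK] at h2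
    rcases h2 with h2 | ⟨-, h2⟩ | ⟨h2, -⟩
    · rw [h2]
    · exact h2
    · simp at h2; omega
  rw [← key d rfl, vmap, ← key (d.1, 0) rfl]

theorem vmap_symm {n K : ℕ} (hK : 2 ≤ K) {G H : SimpleGraph (Fin n)}
    (φ : layered G K ≃g layered H K) (i : Fin n) : vmap φ.symm (vmap φ i) = i := by
  have h := vmap_eq hK φ.symm (φ (⟨1, by omega⟩, i, 0)).2
  have : ((⟨1, by omega⟩ : Fin (K + 2)), (φ (⟨1, by omega⟩, i, 0)).2) =
      φ (⟨1, by omega⟩, i, 0) := Prod.ext (map_layer hK φ (⟨1, by omega⟩, i, 0)).symm rfl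
  rw [this, φ.symm_apply_apply] at h
  exact h.symm

theorem vmap_adj {n K : ℕ} (hK : 2 ≤ K) {G H : SimpleGraph (Fin n)}
    (φ : layered G K ≃g layered H K) {i j : Fin n} (h : G.Adj i j) :
    H.Adj (vmap φ i) (vmap φ j) := by
  obtain ⟨k, rfl⟩ : ∃ k, K = k + 1 := ⟨K - 1, by omega⟩
  let d : Dart n := (i, ⟨j, by omega⟩)
  let e : Dart n := (j, ⟨i, by omega⟩)
  have h1 : (layered G (k + 1)).Adj (⟨k + 1, by omega⟩, d) (⟨k + 1 + 1, by omega⟩, d) :=
    (adj_up rfl).2 (Or.inl rfl)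
  have h2 : (layered G (k + 1)).Adj (⟨k + 1, by omega⟩, e) (⟨k + 1 + 1, by omega⟩, d) :=
    (adj_up rfl).2 (Or.inr (Or.inr ⟨rfl, h.symm, rfl, rfl⟩))
  have h3 := φ.map_rel_iff.2 h1
  have h4 := φ.map_rel_iff.2 h2
  rw [adj_up (by rw [map_layer hK, map_layer hK]), map_layer hK, map_dart hK φ _ k le_rfl] at h3 h4
  have hne : (φ (⟨1, by omega⟩, d)).2 ≠ (φ (⟨1, by omega⟩, e)).2 := by
    intro h5
    have : φ (⟨1, by omega⟩, d) = φ (⟨1, by omega⟩, e) :=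
      Prod.ext (by rw [map_layer hK, map_layer hK]) h5
    exact h.ne (congrArg (fun v : Vtx n (k + 1) => v.2.1) (φ.injective this))
  have e1 := vmap_eq hK φ d
  have e2 := vmap_eq hK φ e
  change _ = vmap φ i at e1
  change _ = vmap φ j at e2
  rw [← e1, ← e2]
  generalize (φ (⟨1, by omega⟩, d)).2 = a at *
  generalize (φ (⟨1, by omega⟩, e)).2 = b at *
  generalize (φ (⟨k + 1 + 1, by omega⟩, d)).2 = c at *
  rcases h3 with h3 | ⟨h3, -⟩ | ⟨-, h3, h5, h6⟩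
  · rcases h4 with h4 | ⟨h4, -⟩ | ⟨-, h4, -, -⟩
    · exact absurd (h3.trans h4.symm) hne
    · simp at h4
    · rw [h3]; exact h4.symm
  · simp at h3
  · rcases h4 with h4 | ⟨h4, -⟩ | ⟨-, -, h7, h8⟩
    · rw [h4]; exact h3
    · simp at h4
    · exact absurd (Prod.ext (Fin.ext (by omega)) (Fin.ext (by omega))) hne

theorem iso_of_layered {n K : ℕ} (hK : 2 ≤ K) {G H : SimpleGraph (Fin n)}
    (φ : layered G K ≃g layered H K) : Nonempty (G ≃g H) :=
  ⟨⟨⟨vmap φ, vmap φ.symm, vmap_symm hK φ, vmap_symm hK φ.symm⟩, fun {a b} =>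
    ⟨fun h => by
      have := vmap_adj hK φ.symm h
      simp only [Equiv.coe_fn_mk] at this
      rwa [vmap_symm hK φ, vmap_symm hK φ] at this, vmap_adj hK φ⟩⟩⟩

/-- extension of a permutation of `Fin n` to `Fin (n+2)` -/
def ext2 {n : ℕ} (σ : Fin n ≃ Fin n) : Fin (n + 2) ≃ Fin (n + 2) :=
  finSumFinEquiv.symm.trans ((Equiv.sumCongr σ (Equiv.refl (Fin 2))).trans finSumFinEquiv)

theorem ext2_eq {n : ℕ} (σ : Fin n ≃ Fin n) (j : Fin (n + 2)) (i : Fin n) :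
    (ext2 σ j : ℕ) = σ i ↔ (j : ℕ) = i := by
  have h : ext2 σ (Fin.castAdd 2 i) = Fin.castAdd 2 (σ i) := by simp [ext2]
  constructor
  · intro e
    have : ext2 σ j = ext2 σ (Fin.castAdd 2 i) := by rw [h]; exact Fin.ext e
    rw [(ext2 σ).injective this]; rfl
  · intro e
    have : j = Fin.castAdd 2 i := Fin.ext e
    rw [this, h]; rfl

theorem layered_of_iso {n K : ℕ} {G H : SimpleGraph (Fin n)} (σ : G ≃g H) :
    Nonempty (layered G K ≃g layered H K) := by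
  let τ : Dart n ≃ Dart n := Equiv.prodCongr σ.toEquiv (ext2 σ.toEquiv)
  have hg : ∀ k d e, Gap H K k (τ d) (τ e) ↔ Gap G K k d e := by
    intro k d e
    have e1 : (τ d).1 = σ d.1 := rfl
    have e2 : (τ e).1 = σ e.1 := rfl
    have e3 : (((τ d).2 : ℕ) = σ e.1) ↔ (d.2 : ℕ) = e.1 := ext2_eq σ.toEquiv _ _
    have e4 : (((τ e).2 : ℕ) = σ d.1) ↔ (e.2 : ℕ) = d.1 := ext2_eq σ.toEquiv _ _
    unfold Gap
    rw [e1, e2, e3, e4, τ.injective.eq_iff, σ.injective.eq_iff, σ.map_rel_iff]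
  refine ⟨⟨Equiv.prodCongr (Equiv.refl _) τ, fun {x y} => ?_⟩⟩
  rw [layered_adj, layered_adj]
  simp only [Equiv.prodCongr_apply, Equiv.coe_refl, Prod.map_fst, Prod.map_snd, id, hg,
    τ.injective.ne_iff]

theorem layered_iff {n K : ℕ} (hK : 2 ≤ K) (G H : SimpleGraph (Fin n)) :
    Nonempty (G ≃g H) ↔ Nonempty (layered G K ≃g layered H K) :=
  ⟨fun ⟨σ⟩ => layered_of_iso σ, fun ⟨φ⟩ => iso_of_layered hK φ⟩

end Pool.Agent.P.MP_f1a348_lc
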