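import Mathlib
import Pool.Agent.P.MP_f1a348_lc.Layer

/-!
Coordinates for the layered graph: the darts move through the plane, first vertically and then
horizontally, while the layer number gives the height.
-/

namespace Pool.Agent.P.MP_f1a348_lc

theorem scale_ne {A W a b a' b' : ℕ} (hb : b ≤ W) (hb' : b' ≤ W) (h : a ≠ a') :
    (A : ℝ) - W ≤ |((a * A + b : ℕ) : ℝ) - ((a' * A + b' : ℕ) : ℝ)| := by
  have hb1 : (b : ℝ) ≤ W := by exact_mod_cast hb
  have hb2 : (b' : ℝ) ≤ W := by exact_mod_cast hb'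
  have hb3 : (0 : ℝ) ≤ b := Nat.cast_nonneg _
  have hb4 : (0 : ℝ) ≤ b' := Nat.cast_nonneg _
  have hA : (0 : ℝ) ≤ A := Nat.cast_nonneg _
  push_cast
  rcases lt_or_gt_of_ne h with h | h
  · have : (a : ℝ) + 1 ≤ a' := by exact_mod_cast h
    rw [le_abs]; right; nlinarith
  · have : (a' : ℝ) + 1 ≤ a := by exact_mod_cast h
    rw [le_abs]; left; nlinarith

theorem scale_eq {A W a b b' : ℕ} (hb : b ≤ W) (hb' : b' ≤ W) :
    |((a * A + b : ℕ) : ℝ) - ((a * A + b' : ℕ) : ℝ)| ≤ W := by
  have hb1 : (b : ℝ) ≤ W := by exact_mod_cast hb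
  have hb2 : (b' : ℝ) ≤ W := by exact_mod_cast hb'
  have hb3 : (0 : ℝ) ≤ b := Nat.cast_nonneg _
  have hb4 : (0 : ℝ) ≤ b' := Nat.cast_nonneg _
  push_cast
  rw [abs_le]; constructor <;> linarith

theorem scale_inj {A a b a' b' : ℕ} (hb : b < A) (hb' : b' < A) (h : a * A + b = a' * A + b') :
    a = a' ∧ b = b' := by
  have h1 : (a * A + b) / A = a := by
    rw [mul_comm, Nat.mul_add_div (by omega), Nat.div_eq_of_lt hb, add_zero]
  have h2 : (a' * A + b') / A = a' := by
    rw [mul_comm, Nat.mul_add_div (by omega), Nat.div_eq_of_lt hb', add_zero]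
  have h3 : a = a' := by rw [← h1, h, h2]
  subst h3
  exact ⟨rfl, by omega⟩

theorem one_le_abs {a b : ℕ} (h : a ≠ b) : (1 : ℝ) ≤ |(a : ℝ) - b| := by
  rcases lt_or_gt_of_ne h with h | h
  · have : (a : ℝ) + 1 ≤ b := by exact_mod_cast h
    rw [le_abs]; right; linarith
  · have : (b : ℝ) + 1 ≤ a := by exact_mod_cast h
    rw [le_abs]; left; linarith

/-- the dart `d` is the second dart of an edge -/
def Second {n : ℕ} (G : SimpleGraph (Fin n)) (d : Dart n) : Prop :=
  ∃ j : Fin n, (d.2 : ℕ) = j ∧ G.Adj d.1 j ∧ j < d.1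

open Classical in
/-- number of the final cluster -/
noncomputable def kap {n : ℕ} (G : SimpleGraph (Fin n)) (d : Dart n) : ℕ :=
  if Second G d then d.2 * (n + 2) + d.1 else d.1 * (n + 2) + d.2

open Classical in
/-- place inside the final cluster -/
noncomputable def off {n : ℕ} (G : SimpleGraph (Fin n)) (d : Dart n) : ℕ :=
  if Second G d then 1 else 0

theorem off_le {n : ℕ} (G : SimpleGraph (Fin n)) (d : Dart n) : off G d ≤ 1 := by
  unfold off; split_ifs <;> omega

theorem kap_lt {n : ℕ} (G : SimpleGraph (Fin n)) (d : Dart n) : kap G d < n * (n + 2) := by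
  have h1 := d.1.2
  have h2 := d.2.2
  unfold kap
  split_ifs with h
  · obtain ⟨j, hj, -, -⟩ := h
    have := j.2
    have : ((d.2 : ℕ) + 1) * (n + 2) ≤ n * (n + 2) := Nat.mul_le_mul_right _ (by omega)
    nlinarith
  · have : ((d.1 : ℕ) + 1) * (n + 2) ≤ n * (n + 2) := Nat.mul_le_mul_right _ (by omega)
    nlinarith

theorem kap_inj {n : ℕ} (G : SimpleGraph (Fin n)) {d e : Dart n} (h : kap G d = kap G e)
    (h' : off G d = off G e) : d = e := by
  have h1 := d.1.2
  have h2 := d.2.2
  have h3 := e.1.2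
  have h4 := e.2.2
  unfold kap at h
  unfold off at h'
  by_cases hd : Second G d <;> by_cases he : Second G e <;> simp only [hd, he, if_true, if_false]
    at h h'
  · obtain ⟨h5, h6⟩ := scale_inj (by omega) (by omega) h
    exact Prod.ext (Fin.ext h6) (Fin.ext h5)
  · omega
  · omega
  · obtain ⟨h5, h6⟩ := scale_inj (by omega) (by omega) h
    exact Prod.ext (Fin.ext h5) (Fin.ext h6)

theorem kap_eq_iff {n K : ℕ} (hK : K ≠ 0) (G : SimpleGraph (Fin n)) (d e : Dart n) :
    Gap G K K d e ↔ kap G d = kap G e := by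
  have h1 := d.1.2
  have h2 := d.2.2
  have h3 := e.1.2
  have h4 := e.2.2
  constructor
  · rintro (h | ⟨h, -⟩ | ⟨-, h5, h6, h7⟩)
    · rw [h]
    · exact absurd h hK
    · rcases lt_or_gt_of_ne h5.ne with h8 | h8
      · have he : Second G e := ⟨d.1, h7, h5.symm, h8⟩
        have hd : ¬ Second G d := by
          rintro ⟨j, hj, -, hj'⟩
          have : (j : ℕ) < d.1 := hj'
          have : (d.1 : ℕ) < e.1 := h8
          omega
        simp only [kap, hd, he, if_true, if_false, h6, h7]
      · have hd : Second G d := ⟨e.1, h6, h5, h8⟩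
        have he : ¬ Second G e := by
          rintro ⟨j, hj, -, hj'⟩
          have : (j : ℕ) < e.1 := hj'
          have : (e.1 : ℕ) < d.1 := h8
          omega
        simp only [kap, hd, he, if_true, if_false, h6, h7]
  · intro h
    by_cases ho : off G d = off G e
    · exact Or.inl (kap_inj G h ho)
    · unfold kap at h
      unfold off at ho
      by_cases hd : Second G d <;> by_cases he : Second G e <;>
        simp only [hd, he, if_true, if_false] at h ho
      · exact absurd trivial ho
      · obtain ⟨h5, h6⟩ := scale_inj (by omega) (by omega) h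
        obtain ⟨j, hj, hj', -⟩ := hd
        have : j = e.1 := Fin.ext (by omega)
        exact Or.inr (Or.inr ⟨rfl, this ▸ hj', h5, h6.symm⟩)
      · obtain ⟨h5, h6⟩ := scale_inj (by omega) (by omega) h
        obtain ⟨j, hj, hj', -⟩ := he
        have : j = d.1 := Fin.ext (by omega)
        exact Or.inr (Or.inr ⟨rfl, (this ▸ hj').symm, h6, h5.symm⟩)
      · exact absurd trivial ho

/-- surely adjacent -/
def Close (c h s t : ℝ) : Prop := |h| ≤ 1 ∧ |s| ≤ c * (1 - |h|) ∧ |t| ≤ c * (1 - |h|)

/-- surely not adjacent -/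
def Far (h s t : ℝ) : Prop := 1 < h ^ 2 + s ^ 2 + t ^ 2

theorem close_of {c h s t η : ℝ} (hη : 0 < η) (hη' : η < 1) (hh : h = -(1 - η))
    (hs : |s| ≤ c * η) (ht : |t| ≤ c * η) : Close c h s t := by
  have : |h| = 1 - η := by rw [hh, abs_neg, abs_of_pos (by linarith)]
  refine ⟨by linarith, ?_, ?_⟩ <;> rw [this] <;> simpa

theorem far_of {h s t η ρ : ℝ} (hh : h = -(1 - η)) (hρ : 0 ≤ ρ) (hη : 2 * η < ρ ^ 2)
    (hs : ρ ≤ |s| ∨ ρ ≤ |t|) : Far h s t := by
  unfold Far
  rcases hs with hs | hs
  · have : ρ ^ 2 ≤ s ^ 2 := by rw [← sq_abs s]; gcongr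
    rw [hh]; nlinarith [sq_nonneg t, sq_nonneg η]
  · have : ρ ^ 2 ≤ t ^ 2 := by rw [← sq_abs t]; gcongr
    rw [hh]; nlinarith [sq_nonneg s, sq_nonneg η]

theorem abs_sub_le_of {x y B : ℝ} (hx : 0 ≤ x) (hy : 0 ≤ y) (hx' : x ≤ B) (hy' : y ≤ B) :
    |x - y| ≤ B := by
  rw [abs_le]; constructor <;> linarith

theorem braid_aux {n A M : ℕ} (G : SimpleGraph (Fin n)) {c β η₀ η₁ : ℝ} (hc : 0 < c)
    (hβ : 0 < β) (hM : 0 < M) (hA : n + 2 < A) (h0 : 0 < η₁) (h01 : η₁ ≤ η₀) (h02 : η₀ < 1 / 2)
    (h1 : β * ((n * (n + 2) : ℕ) * A) ≤ c) (h2 : β * (n + 2 : ℕ) ≤ c * η₀)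
    (h3 : 2 * η₀ < (β * (A - (n + 2 : ℕ))) ^ 2) (h4 : 1 ≤ η₁ * M) (h5 : 2 * η₁ < β ^ 2) :
    ∃ h s t : Vtx n (2 * M + 1) → ℝ,
      (∀ x y, h x = h y → s x = s y → t x = t y → x = y) ∧
      ∀ x y, x ≠ y → ((layered G (2 * M + 1)).Adj x y →
        Close c (h x - h y) (s x - s y) (t x - t y)) ∧
        (¬ (layered G (2 * M + 1)).Adj x y → Far (h x - h y) (s x - s y) (t x - t y)) := by
  have hM' : (0 : ℝ) < M := by exact_mod_cast hM
  have hc0 : 0 ≤ c * η₀ := mul_nonneg hc.le (by linarith)
  let S : Dart n → ℕ := fun d => d.1 * A + d.2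
  let T : Dart n → ℕ := fun d => kap G d * A + off G d
  let ta : ℕ → ℕ := fun k => min M (2 * M - (k - 1))
  let tb : ℕ → ℕ := fun k => min M (k - 1)
  let H : ℕ → ℝ := fun k => k * (1 - η₁) + (if k = 0 then η₀ - η₁ else 0) -
    (if k = 2 * M + 2 then η₀ - η₁ else 0)
  let B : ℝ := β * ((n * (n + 2) : ℕ) * A)
  have hS : ∀ d, β * S d ≤ B := by
    intro d
    have e1 := d.1.2
    have e2 := d.2.2
    have e3 : ((d.1 : ℕ) + 1) * A ≤ n * (n + 2) * A :=
      Nat.mul_le_mul_right _ (by nlinarith)
    have : S d ≤ n * (n + 2) * A := by simp only [S]; nlinarith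
    have : (S d : ℝ) ≤ (n * (n + 2) : ℕ) * A := by exact_mod_cast this
    exact mul_le_mul_of_nonneg_left this hβ.le
  have hT : ∀ d, β * T d ≤ B := by
    intro d
    have e1 := kap_lt G d
    have e2 := off_le G d
    have e3 : (kap G d + 1) * A ≤ n * (n + 2) * A := Nat.mul_le_mul_right _ e1
    have : T d ≤ n * (n + 2) * A := by simp only [T]; nlinarith
    have : (T d : ℝ) ≤ (n * (n + 2) : ℕ) * A := by exact_mod_cast this
    exact mul_le_mul_of_nonneg_left this hβ.le
  have hSinj : ∀ d e, S d = S e → d = e := by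
    intro d e h
    obtain ⟨e1, e2⟩ := scale_inj (by have := d.2.2; omega) (by have := e.2.2; omega) h
    exact Prod.ext (Fin.ext e1) (Fin.ext e2)
  have hTinj : ∀ d e, T d = T e → d = e := by
    intro d e h
    obtain ⟨e1, e2⟩ := scale_inj (by have := off_le G d; omega) (by have := off_le G e; omega) h
    exact kap_inj G e1 e2
  have hH : ∀ k l : ℕ, k < l → l ≤ 2 * M + 2 → 0 < H l - H k ∧ (k + 2 ≤ l → 1 < H l - H k) := by
    intro k l hkl hl
    have e1 : (k : ℝ) + 1 ≤ l := by exact_mod_cast hkl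
    have e2 : ¬ l = 0 := by omega
    have e3 : ¬ k = 2 * M + 2 := by omega
    simp only [H, e2, e3, if_false]
    constructor
    · by_cases e4 : k = 0 ∧ l = 2 * M + 2
      · have e5 : (k : ℝ) + 2 ≤ l := by exact_mod_cast (by omega : k + 2 ≤ l)
        split_ifs <;> nlinarith
      · split_ifs with e5 e6 e6
        · exact absurd ⟨e6, e5⟩ e4
        · nlinarith
        · nlinarith
        · nlinarith
    · intro e4
      have e5 : (k : ℝ) + 2 ≤ l := by exact_mod_cast e4
      split_ifs <;> nlinarith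
  have frac : ∀ (u : ℝ) (a : ℕ), 0 ≤ u → u ≤ B → a ≤ M → 0 ≤ u * (a / M) ∧ u * (a / M) ≤ B := by
    intro u a e1 e2 e3
    have e4 : (a : ℝ) / M ≤ 1 := by rw [div_le_one hM']; exact_mod_cast e3
    have e5 : 0 ≤ (a : ℝ) / M := by positivity
    exact ⟨mul_nonneg e1 e5, by nlinarith⟩
  have step : ∀ (u : ℝ) (a b : ℕ), 0 ≤ u → u ≤ B → a ≤ b + 1 → b ≤ a + 1 →
      |u * (a / M) - u * (b / M)| ≤ c * η₁ := by
    intro u a b e1 e2 e3 e4
    have e5 : (a : ℝ) ≤ b + 1 := by exact_mod_cast e3
    have e6 : (b : ℝ) ≤ a + 1 := by exact_mod_cast e4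
    have e7 : |(a : ℝ) - b| ≤ 1 := by rw [abs_le]; constructor <;> linarith
    have : u * (a / M) - u * (b / M) = u / M * (a - b) := by ring
    rw [this, abs_mul, abs_of_nonneg (by positivity)]
    have e8 : u / M ≤ c * η₁ := by
      rw [div_le_iff₀ hM']
      have : u ≤ c := e2.trans h1
      nlinarith
    have e9 : 0 ≤ u / M := by positivity
    nlinarith
  have hone : (M : ℝ) / M = 1 := div_self hM'.ne'
  have sep : ∀ (a b : ℕ) (ρ : ℝ), ρ ≤ |(a : ℝ) - b| → β * ρ ≤ |β * a - β * b| := by
    intro a b ρ e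
    rw [← mul_sub, abs_mul, abs_of_pos hβ]
    exact mul_le_mul_of_nonneg_left e hβ.le
  have sep' : ∀ (a b : ℕ) (ρ : ℝ), |(a : ℝ) - b| ≤ ρ → |β * a - β * b| ≤ β * ρ := by
    intro a b ρ e
    rw [← mul_sub, abs_mul, abs_of_pos hβ]
    exact mul_le_mul_of_nonneg_left e hβ.le
  have hAW : (0 : ℝ) ≤ β * (A - (n + 2 : ℕ)) := by
    have : ((n + 2 : ℕ) : ℝ) ≤ A := by exact_mod_cast hA.le
    exact mul_nonneg hβ.le (by linarith)
  refine ⟨fun x => H x.1, fun x => β * S x.2 * (ta x.1 / M), fun x => β * T x.2 * (tb x.1 / M),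
    ?_, ?_⟩
  · intro x y e1 e2 e3
    have e4 : x.1 = y.1 := by
      have := x.1.2
      have := y.1.2
      rcases lt_trichotomy (x.1 : ℕ) y.1 with h | h | h
      · have := (hH _ _ h (by omega)).1
        simp only at e1
        linarith
      · exact Fin.ext h
      · have := (hH _ _ h (by omega)).1
        simp only at e1
        linarith
    refine Prod.ext e4 ?_
    simp only [e4] at e2 e3
    have : ta y.1 = M ∨ tb y.1 = M := by simp only [ta, tb]; omega
    rcases this with h | h
    · rw [h, hone, mul_one, mul_one] at e2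
      exact hSinj _ _ (by exact_mod_cast mul_left_cancel₀ hβ.ne' e2)
    · rw [h, hone, mul_one, mul_one] at e3
      exact hTinj _ _ (by exact_mod_cast mul_left_cancel₀ hβ.ne' e3)
  · have key : ∀ x y : Vtx n (2 * M + 1), (x.1 : ℕ) ≤ y.1 → x ≠ y →
        ((layered G (2 * M + 1)).Adj x y →
          Close c (H x.1 - H y.1) (β * S x.2 * (ta x.1 / M) - β * S y.2 * (ta y.1 / M))
            (β * T x.2 * (tb x.1 / M) - β * T y.2 * (tb y.1 / M))) ∧
        (¬ (layered G (2 * M + 1)).Adj x y →
          Far (H x.1 - H y.1) (β * S x.2 * (ta x.1 / M) - β * S y.2 * (ta y.1 / M))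
            (β * T x.2 * (tb x.1 / M) - β * T y.2 * (tb y.1 / M))) := by
      intro x y hxy hne
      have hx := x.1.2
      have hy := y.1.2
      by_cases e0 : (x.1 : ℕ) = y.1
      · have hadj : (layered G (2 * M + 1)).Adj x y :=
          Or.inl ⟨Fin.ext e0, fun e => hne (Prod.ext (Fin.ext e0) e)⟩
        refine ⟨fun _ => ?_, fun h => absurd hadj h⟩
        have a1 := frac _ (ta x.1) (by positivity) (hS x.2) (min_le_left _ _)
        have a2 := frac _ (ta y.1) (by positivity) (hS y.2) (min_le_left _ _)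
        have a3 := frac _ (tb x.1) (by positivity) (hT x.2) (min_le_left _ _)
        have a4 := frac _ (tb y.1) (by positivity) (hT y.2) (min_le_left _ _)
        have a5 : H x.1 - H y.1 = 0 := by rw [e0, sub_self]
        rw [a5]
        refine ⟨by simp, ?_, ?_⟩
        · simpa using (abs_sub_le_of a1.1 a2.1 a1.2 a2.2).trans h1
        · simpa using (abs_sub_le_of a3.1 a4.1 a3.2 a4.2).trans h1
      by_cases e1 : (y.1 : ℕ) = x.1 + 1
      · rw [adj_up e1]
        by_cases e2 : (x.1 : ℕ) = 0
        · have a1 : H x.1 - H y.1 = -(1 - η₀) := by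
            have b1 : ¬ (0 = 2 * M + 2) := by omega
            have b2 : ¬ (0 + 1 = 2 * M + 2) := by omega
            simp only [H, e1, e2, b1, b2, if_true, if_false, Nat.succ_ne_zero]
            push_cast; ring
          have a2 : ta x.1 = M := by simp only [ta]; omega
          have a3 : ta y.1 = M := by simp only [ta]; omega
          have a4 : tb x.1 = 0 := by simp only [tb]; omega
          have a5 : tb y.1 = 0 := by simp only [tb]; omega
          rw [a2, a3, a4, a5, hone, mul_one, mul_one]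
          have a6 : Gap G (2 * M + 1) x.1 x.2 y.2 ↔ x.2.1 = y.2.1 := by
            constructor
            · rintro (h | ⟨-, h⟩ | ⟨h, -⟩)
              · rw [h]
              · exact h
              · omega
            · exact fun h => Or.inr (Or.inl ⟨e2, h⟩)
          rw [a6]
          constructor
          · intro h
            refine close_of (η := η₀) (by linarith) (by linarith) a1 ?_ (by simpa using hc0)
            refine (sep' _ _ _ ?_).trans h2
            simp only [S, h]
            exact scale_eq x.2.2.2.le y.2.2.2.le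
          · intro h
            refine far_of a1 hAW h3 (Or.inl (sep _ _ _ ?_))
            exact scale_ne x.2.2.2.le y.2.2.2.le (fun e => h (Fin.ext e))
        by_cases e3 : (x.1 : ℕ) = 2 * M + 1
        · have a1 : H x.1 - H y.1 = -(1 - η₀) := by
            have b1 : ¬ (2 * M + 1 = 2 * M + 2) := by omega
            simp only [H, e1, e3, b1, if_true, if_false, Nat.succ_ne_zero]
            push_cast; ring
          have a2 : ta x.1 = 0 := by simp only [ta]; omega
          have a3 : ta y.1 = 0 := by simp only [ta]; omega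
          have a4 : tb x.1 = M := by simp only [tb]; omega
          have a5 : tb y.1 = M := by simp only [tb]; omega
          have a6 : Gap G (2 * M + 1) x.1 x.2 y.2 ↔ kap G x.2 = kap G y.2 := by
            rw [e3, kap_eq_iff (by omega)]
          rw [a2, a3, a4, a5, hone, mul_one, mul_one, a6]
          have b1 := off_le G x.2
          have b2 := off_le G y.2
          constructor
          · intro h
            refine close_of (η := η₀) (by linarith) (by linarith) a1
              (by simpa using hc0) ?_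
            refine (sep' _ _ _ ?_).trans h2
            simp only [T, h]
            exact scale_eq (by omega) (by omega)
          · intro h
            refine far_of a1 hAW h3 (Or.inr (sep _ _ _ ?_))
            exact scale_ne (by omega) (by omega) h
        · have a1 : H x.1 - H y.1 = -(1 - η₁) := by
            have b1 : ¬ ((x.1 : ℕ) = 2 * M + 2) := by omega
            have b2 : ¬ ((x.1 : ℕ) + 1 = 2 * M + 2) := by omega
            simp only [H, e1, e2, b1, b2, if_false, Nat.succ_ne_zero]
            push_cast; ring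
          have a6 : Gap G (2 * M + 1) x.1 x.2 y.2 ↔ x.2 = y.2 := by
            constructor
            · rintro (h | ⟨h, -⟩ | ⟨h, -⟩)
              · exact h
              · omega
              · omega
            · exact fun h => Or.inl h
          rw [a6]
          constructor
          · intro h
            rw [h]
            refine close_of (η := η₁) h0 (by linarith) a1 ?_ ?_
            · exact step _ _ _ (by positivity) (hS _) (by simp only [ta]; omega)
                (by simp only [ta]; omega)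
            · exact step _ _ _ (by positivity) (hT _) (by simp only [tb]; omega)
                (by simp only [tb]; omega)
          · intro h
            refine far_of a1 hβ.le h5 ?_
            have : (ta x.1 = M ∧ ta y.1 = M) ∨ (tb x.1 = M ∧ tb y.1 = M) := by
              simp only [ta, tb]; omega
            rcases this with ⟨b1, b2⟩ | ⟨b1, b2⟩
            · left
              rw [b1, b2, hone, mul_one, mul_one]
              simpa using sep _ _ _ (one_le_abs (fun e => h (hSinj _ _ e)))
            · right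
              rw [b1, b2, hone, mul_one, mul_one]
              simpa using sep _ _ _ (one_le_abs (fun e => h (hTinj _ _ e)))
      · have a1 := (hH x.1 y.1 (by omega) (by omega)).2 (by omega)
        refine ⟨fun h => ?_, fun _ => ?_⟩
        · have := adj_layer h
          omega
        · unfold Far
          nlinarith [sq_nonneg (β * S x.2 * (ta x.1 / M) - β * S y.2 * (ta y.1 / M)),
            sq_nonneg (β * T x.2 * (tb x.1 / M) - β * T y.2 * (tb y.1 / M))]
    intro x y hne
    rcases le_total (x.1 : ℕ) y.1 with h | h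
    · exact key x y h hne
    · have := key y x h hne.symm
      rw [SimpleGraph.adj_comm] at this
      refine ⟨fun e => ?_, fun e => ?_⟩
      · have := this.1 e
        unfold Close at this ⊢
        simp only
        rw [abs_sub_comm (H x.1), abs_sub_comm (β * S x.2 * (ta x.1 / M)),
          abs_sub_comm (β * T x.2 * (tb x.1 / M))]
        exact this
      · have := this.2 e
        unfold Far at this ⊢
        simp only
        nlinarith

/-- the size parameter -/
def Qof (C n : ℕ) : ℕ := C * (n * (n + 2) + (n + 2))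

/-- the number of dart layers -/
def Kof (C n : ℕ) : ℕ := 2 * (4 * Qof C n ^ 6) + 1

theorem braid {c : ℝ} (hc : 0 < c) {C : ℕ} (hC : 10 ≤ c * C) (hC' : 2 ≤ C) {n : ℕ}
    (G : SimpleGraph (Fin n)) :
    ∃ h s t : Vtx n (Kof C n) → ℝ,
      (∀ x y, h x = h y → s x = s y → t x = t y → x = y) ∧
      ∀ x y, x ≠ y → ((layered G (Kof C n)).Adj x y →
        Close c (h x - h y) (s x - s y) (t x - t y)) ∧
        (¬ (layered G (Kof C n)).Adj x y → Far (h x - h y) (s x - s y) (t x - t y)) := by
  have q1 : 2 * (n + 2) ≤ Qof C n := Nat.mul_le_mul hC' (Nat.le_add_left _ _)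
  have q2 : 10 * (((n * (n + 2) : ℕ) : ℝ) + ((n + 2 : ℕ) : ℝ)) ≤ c * Qof C n := by
    have : (Qof C n : ℝ) = C * (((n * (n + 2) : ℕ) : ℝ) + ((n + 2 : ℕ) : ℝ)) := by
      unfold Qof; push_cast; ring
    rw [this, ← mul_assoc]
    exact mul_le_mul_of_nonneg_right hC (by positivity)
  generalize hL : ((n * (n + 2) : ℕ) : ℝ) = L at q2
  generalize hW : ((n + 2 : ℕ) : ℝ) = W at q2
  have hL0 : 0 ≤ L := by rw [← hL]; positivity
  have hW0 : 0 ≤ W := by rw [← hW]; positivity
  have q3 : 2 * W ≤ Qof C n := by rw [← hW]; exact_mod_cast q1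
  have q4 : (4 : ℝ) ≤ Qof C n := by exact_mod_cast (by omega : 4 ≤ Qof C n)
  unfold Kof
  generalize Qof C n = Q at *
  have hQ : (0 : ℝ) < Q := by linarith
  refine braid_aux (A := Q ^ 2) (M := 4 * Q ^ 6) G (β := 1 / Q ^ 3) (η₀ := 1 / (10 * Q ^ 2))
    (η₁ := 1 / (4 * Q ^ 6)) hc (by positivity) (by have : 0 < Q := by omega
                                                   positivity) (by nlinarith) (by positivity)
    ?_ ?_ ?_ ?_ ?_ ?_ ?_
  · apply one_div_le_one_div_of_le (by positivity)
    have : (4 : ℝ) ^ 4 ≤ Q ^ 4 := by gcongr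
    nlinarith [sq_nonneg (Q : ℝ), sq_pos_of_pos hQ]
  · apply one_div_lt_one_div_of_lt (by positivity)
    nlinarith
  · rw [hL]
    push_cast
    have : 1 / (Q : ℝ) ^ 3 * (L * Q ^ 2) = L / Q := by field_simp
    rw [this, div_le_iff₀ hQ]
    linarith
  · rw [hW]
    have e1 : 1 / (Q : ℝ) ^ 3 * W = (10 * W) / (10 * Q ^ 3) := by field_simp
    have e2 : c * (1 / (10 * (Q : ℝ) ^ 2)) = (c * Q) / (10 * Q ^ 3) := by field_simp
    rw [e1, e2]
    exact div_le_div_of_nonneg_right (by linarith) (by positivity)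
  · rw [hW]
    push_cast
    have e1 : 1 / (2 * (Q : ℝ)) ≤ 1 / (Q : ℝ) ^ 3 * (Q ^ 2 - W) := by
      have : 1 / (2 * (Q : ℝ)) = 1 / (Q : ℝ) ^ 3 * (Q ^ 2 / 2) := by field_simp
      rw [this]
      gcongr
      nlinarith
    have e2 : (1 / (2 * (Q : ℝ))) ^ 2 ≤ (1 / (Q : ℝ) ^ 3 * (Q ^ 2 - W)) ^ 2 := by gcongr
    refine lt_of_lt_of_le ?_ e2
    have e3 : 2 * (1 / (10 * (Q : ℝ) ^ 2)) = 1 / (5 * Q ^ 2) := by field_simp; norm_num
    have e4 : (1 / (2 * (Q : ℝ))) ^ 2 = 1 / (4 * Q ^ 2) := by field_simp; norm_num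
    rw [e3, e4]
    apply one_div_lt_one_div_of_lt (by positivity)
    nlinarith
  · push_cast
    rw [one_div_mul_cancel (by positivity)]
  · have e3 : 2 * (1 / (4 * (Q : ℝ) ^ 6)) = 1 / (2 * Q ^ 6) := by field_simp; norm_num
    have e4 : (1 / (Q : ℝ) ^ 3) ^ 2 = 1 / Q ^ 6 := by field_simp
    rw [e3, e4]
    apply one_div_lt_one_div_of_lt (by positivity)
    have : (0 : ℝ) < Q ^ 6 := by positivity
    linarith

end Pool.Agent.P.MP_f1a348_lc
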