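import Mathlib
import Pool.Agent.P.MP_f1a348_lc.Braid

/-!
The layered graph is an intersection graph of translates of any convex body of dimension at
least three.
-/

namespace Pool.Agent.P.MP_f1a348_lc

open Pointwise

theorem convex_frame {d : ℕ} (hd : 3 ≤ d) (K : Set (EuclideanSpace ℝ (Fin d)))
    (hconv : Convex ℝ K) (hcomp : IsCompact K) (hint : (interior K).Nonempty) :
    ∃ (c : ℝ) (u a b : EuclideanSpace ℝ (Fin d)), 0 < c ∧
      (∀ h s t : ℝ, Close c h s t → h • u + s • a + t • b ∈ K - K) ∧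
      (∀ h s t : ℝ, h • u + s • a + t • b ∈ K - K → ¬ Far h s t) ∧
      (∀ h s t : ℝ, h • u + s • a + t • b = 0 → h = 0 ∧ s = 0 ∧ t = 0) := by
  obtain ⟨z, hz⟩ := hint
  obtain ⟨r, hr, hball⟩ := Metric.mem_nhds_iff.1 (mem_interior_iff_mem_nhds.1 hz)
  have hzK : z ∈ K := interior_subset hz
  have hD : IsCompact (K - K) := by
    rw [sub_eq_add_neg]; exact hcomp.add hcomp.neg
  have hDc : Convex ℝ (K - K) := hconv.sub hconv
  have hsmall : ∀ w : EuclideanSpace ℝ (Fin d), ‖w‖ < r → w ∈ K - K := by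
    intro w hw
    refine ⟨z + w, hball (by simpa using hw), z, hzK, by simp⟩
  have hneg : ∀ w, w ∈ K - K → -w ∈ K - K := by
    rintro w ⟨x, hx, y, hy, rfl⟩
    exact ⟨y, hy, x, hx, by simp⟩
  obtain ⟨u, hu, hmax⟩ := hD.exists_isMaxOn ⟨0, hsmall 0 (by simpa using hr)⟩
    (f := fun w => ‖w‖) continuous_norm.continuousOn
  let i0 : Fin d := ⟨0, by omega⟩
  let i1 : Fin d := ⟨1, by omega⟩
  let i2 : Fin d := ⟨2, by omega⟩
  have hR : 0 < ‖u‖ := by
    have h1 : ‖(EuclideanSpace.single i0 (r / 2) : EuclideanSpace ℝ (Fin d))‖ = r / 2 := by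
      rw [PiLp.norm_single, Real.norm_eq_abs, abs_of_pos (by linarith)]
    have h2 := hmax (hsmall _ (by rw [h1]; linarith))
    simp only [Set.mem_ofPred_eq] at h2
    linarith
  obtain ⟨e, he⟩ := Orthonormal.exists_orthonormalBasis_extension_of_card_eq (𝕜 := ℝ)
    (E := EuclideanSpace ℝ (Fin d)) (ι := Fin d) (by simp)
    (v := fun _ => ‖u‖⁻¹ • u) (s := {i0}) (by
      constructor
      · intro i
        simp [norm_smul, hR.ne']
      · intro i j hij
        exact absurd (Subsingleton.elim i j) hij)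
  have he0 : u = ‖u‖ • e i0 := by
    rw [he i0 rfl, smul_smul, mul_inv_cancel₀ hR.ne', one_smul]
  generalize hRR : ‖u‖ = R at hR he0
  have hnorm : ∀ h s t : ℝ, ‖h • u + s • (R • e i1) + t • (R • e i2)‖ ^ 2 =
      R ^ 2 * (h ^ 2 + s ^ 2 + t ^ 2) := by
    intro h s t
    have o := orthonormal_iff_ite.1 e.orthonormal
    have n01 : i0 ≠ i1 := by simp [i0, i1]
    have n02 : i0 ≠ i2 := by simp [i0, i2]
    have n12 : i1 ≠ i2 := by simp [i1, i2]
    rw [← real_inner_self_eq_norm_sq, he0]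
    simp only [inner_add_left, inner_add_right, inner_smul_left, inner_smul_right, o, n01, n02,
      n12, n01.symm, n02.symm, n12.symm, if_true, if_false, conj_trivial]
    ring
  refine ⟨r / (4 * R), u, R • e i1, R • e i2, by positivity, ?_, ?_, ?_⟩
  · rintro h s t ⟨h1, h2, h3⟩
    have hu' : ∃ v ∈ K - K, h • u = |h| • v := by
      rcases le_total 0 h with h0 | h0
      · exact ⟨u, hu, by rw [abs_of_nonneg h0]⟩
      · exact ⟨-u, hneg u hu, by rw [abs_of_nonpos h0]; simp⟩
    obtain ⟨v, hv, hv'⟩ := hu'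
    rcases h1.eq_or_lt with h1' | h1'
    · rw [h1', sub_self, mul_zero, abs_nonpos_iff] at h2 h3
      rw [hv', h1', h2, h3]
      simpa using hv
    · have hl : 0 < 1 - |h| := by linarith
      have hw : (s / (1 - |h|)) • (R • e i1) + (t / (1 - |h|)) • (R • e i2) ∈ K - K := by
        apply hsmall
        have b1 : |s / (1 - |h|)| ≤ r / (4 * R) := by
          rw [abs_div, abs_of_pos hl, div_le_iff₀ hl]; exact h2
        have b2 : |t / (1 - |h|)| ≤ r / (4 * R) := by
          rw [abs_div, abs_of_pos hl, div_le_iff₀ hl]; exact h3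
        have b3 : r / (4 * R) * R = r / 4 := by field_simp
        refine (norm_add_le _ _).trans_lt ?_
        simp only [norm_smul, Real.norm_eq_abs, e.orthonormal.1 _, mul_one, abs_of_pos hR]
        nlinarith
      have := hDc hv hw (abs_nonneg h) hl.le (by ring)
      convert this using 1
      rw [hv', smul_add, smul_smul (1 - |h|) (s / _), smul_smul (1 - |h|) (t / _),
        mul_div_cancel₀ _ hl.ne', mul_div_cancel₀ _ hl.ne', add_assoc]
  · intro h s t hm hf
    have h1 := hmax hm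
    simp only [Set.mem_ofPred_eq, hRR] at h1
    have h2 : ‖h • u + s • (R • e i1) + t • (R • e i2)‖ ^ 2 ≤ R ^ 2 := by gcongr
    rw [hnorm] at h2
    unfold Far at hf
    have : 0 < R ^ 2 := by positivity
    nlinarith
  · intro h s t h0
    have h1 := hnorm h s t
    rw [h0, norm_zero] at h1
    have h2 : 0 < R ^ 2 := by positivity
    have h3 : h ^ 2 + s ^ 2 + t ^ 2 = 0 := by
      rcases mul_eq_zero.1 (h1.symm.trans (by norm_num : (0 : ℝ) ^ 2 = 0)) with h4 | h4
      · exact absurd h4 h2.ne'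
      · exact h4
    refine ⟨?_, ?_, ?_⟩ <;> nlinarith [sq_nonneg h, sq_nonneg s, sq_nonneg t]

theorem layered_translate {d : ℕ} (hd : 3 ≤ d) (K : Set (EuclideanSpace ℝ (Fin d)))
    (hconv : Convex ℝ K) (hcomp : IsCompact K) (hint : (interior K).Nonempty) :
    ∃ C : ℕ, 1 ≤ C ∧ ∀ (n : ℕ) (G : SimpleGraph (Fin n)),
      ∃ p : Vtx n (Kof C n) → EuclideanSpace ℝ (Fin d), Function.Injective p ∧
        ∀ x y, (layered G (Kof C n)).Adj x y ↔ x ≠ y ∧ ((p x +ᵥ K) ∩ (p y +ᵥ K)).Nonempty := by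
  obtain ⟨c, u, a, b, hc, hA, hB, hI⟩ := convex_frame hd K hconv hcomp hint
  obtain ⟨C, hC⟩ := exists_nat_ge (10 / c)
  refine ⟨C + 2, by omega, fun n G => ?_⟩
  obtain ⟨h, s, t, hinj, hadj⟩ := braid (C := C + 2) hc (by
    rw [div_le_iff₀ hc] at hC
    push_cast
    nlinarith) (by omega) G
  have hsub : ∀ x y, (h x • u + s x • a + t x • b) - (h y • u + s y • a + t y • b) =
      (h x - h y) • u + (s x - s y) • a + (t x - t y) • b := by
    intro x y
    simp only [sub_smul]
    abel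
  refine ⟨fun x => h x • u + s x • a + t x • b, fun x y e => ?_, fun x y => ?_⟩
  · have := hsub x y
    simp only at e
    rw [e, sub_self] at this
    obtain ⟨e1, e2, e3⟩ := hI _ _ _ this.symm
    exact hinj x y (by linarith) (by linarith) (by linarith)
  · have key : ∀ p q : EuclideanSpace ℝ (Fin d),
        ((p +ᵥ K) ∩ (q +ᵥ K)).Nonempty ↔ p - q ∈ K - K := by
      intro p q
      constructor
      · rintro ⟨w, ⟨x, hx, rfl⟩, ⟨y, hy, e⟩⟩
        simp only [vadd_eq_add] at e
        refine ⟨y, hy, x, hx, ?_⟩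
        simp only
        rw [sub_eq_sub_iff_add_eq_add, add_comm y, e]
      · rintro ⟨y, hy, x, hx, e⟩
        simp only at e
        refine ⟨p + x, ⟨x, hx, rfl⟩, ⟨y, hy, ?_⟩⟩
        simp only [vadd_eq_add]
        rw [sub_eq_sub_iff_add_eq_add] at e
        rw [add_comm q, e]
    rw [key, hsub]
    constructor
    · intro e
      exact ⟨e.ne, hA _ _ _ ((hadj x y e.ne).1 e)⟩
    · rintro ⟨e1, e2⟩
      by_contra e
      exact hB _ _ _ e2 ((hadj x y e1).2 e)

end Pool.Agent.P.MP_f1a348_lc
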