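import Mathlib
import Pool.Agent.Lib.Helper47.PTMore
import Pool.Agent.P.MP_f1a348_lc.Body

/-!
The reduction on bit strings and its running time.
-/

namespace Pool.Agent.P.MP_f1a348_lc

open Pool.Agent.Lib.Helper47

open Classical in
/-- adjacency matrix, row by row -/
noncomputable def adjBits {n : ℕ} (G : SimpleGraph (Fin n)) : List Bool :=
  List.ofFn fun x : Fin (n * n) => decide (G.Adj x.divNat x.modNat)

theorem adjBits_length {n : ℕ} (G : SimpleGraph (Fin n)) : (adjBits G).length = n * n := by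
  simp [adjBits]

theorem adjBits_getD {n : ℕ} (G : SimpleGraph (Fin n)) (i j : Fin n) :
    (adjBits G).getD (i * n + j) false = true ↔ G.Adj i j := by
  have hi := i.2
  have hj := j.2
  have h : (i : ℕ) * n + j < n * n := by
    have : ((i : ℕ) + 1) * n ≤ n * n := Nat.mul_le_mul_right _ hi
    nlinarith
  rw [List.getD_eq_getElem _ _ (by rw [adjBits_length]; exact h)]
  simp only [adjBits, List.getElem_ofFn, decide_eq_true_eq]
  have e1 : (⟨i * n + j, h⟩ : Fin (n * n)).divNat = i := by
    apply Fin.ext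
    simp only [Fin.coe_divNat]
    rw [mul_comm, Nat.mul_add_div (by omega), Nat.div_eq_of_lt hj, add_zero]
  have e2 : (⟨i * n + j, h⟩ : Fin (n * n)).modNat = j := by
    apply Fin.ext
    simp only [Fin.coe_modNat]
    rw [mul_comm, Nat.mul_add_mod, Nat.mod_eq_of_lt hj]
  rw [e1, e2]

/-- the relation between consecutive layers, on numbers -/
def gapB (g : List Bool) (n K k i j i' j' : ℕ) : Bool :=
  (i == i' && j == j') || ((k == 0 && i == i') ||
    (k == K && (g.getD (i * n + i') false && (j == i' && j' == i))))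

theorem gapB_iff {n : ℕ} (G : SimpleGraph (Fin n)) (K k : ℕ) (d e : Dart n) :
    gapB (adjBits G) n K k d.1 d.2 e.1 e.2 = true ↔ Gap G K k d e := by
  simp only [gapB, Gap, Bool.or_eq_true, Bool.and_eq_true, beq_iff_eq, adjBits_getD, Prod.ext_iff,
    Fin.ext_iff]

/-- adjacency in the layered graph, on numbers -/
def adjB (g : List Bool) (n K k i j k' i' j' : ℕ) : Bool :=
  (k == k' && !(i == i' && j == j')) || ((k' == k + 1 && gapB g n K k i j i' j') ||
    (k == k' + 1 && gapB g n K k' i j i' j'))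

theorem adjB_iff {n : ℕ} (G : SimpleGraph (Fin n)) (K : ℕ) (x y : Vtx n K) :
    adjB (adjBits G) n K x.1 x.2.1 x.2.2 y.1 y.2.1 y.2.2 = true ↔ (layered G K).Adj x y := by
  simp only [adjB, layered_adj, Bool.or_eq_true, Bool.and_eq_true, beq_iff_eq, gapB_iff,
    Bool.not_eq_true', ne_eq, Prod.ext_iff, Fin.ext_iff, ← Bool.not_eq_true]

/-- number of vertices of the layered graph -/
def Nof (n K : ℕ) : ℕ := (K + 2) * (n * (n + 2))

/-- numbering of the vertices -/
def num (n K : ℕ) : Fin (Nof n K) ≃ Vtx n K :=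
  finProdFinEquiv.symm.trans (Equiv.prodCongr (Equiv.refl _) finProdFinEquiv.symm)

/-- the layered graph on numbered vertices -/
def out {n : ℕ} (G : SimpleGraph (Fin n)) (K : ℕ) : SimpleGraph (Fin (Nof n K)) :=
  (layered G K).comap (num n K)

/-- one entry of the output matrix -/
def entry (g : List Bool) (n K x y : ℕ) : Bool :=
  adjB g n K (x / (n * (n + 2))) (x % (n * (n + 2)) / (n + 2)) (x % (n * (n + 2)) % (n + 2))
    (y / (n * (n + 2))) (y % (n * (n + 2)) / (n + 2)) (y % (n * (n + 2)) % (n + 2))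

/-- the output matrix -/
def outB (g : List Bool) (n K : ℕ) : List Bool :=
  (List.range (Nof n K * Nof n K)).map fun z => entry g n K (z / Nof n K) (z % Nof n K)

theorem outB_eq {n : ℕ} (G : SimpleGraph (Fin n)) (K : ℕ) :
    outB (adjBits G) n K = adjBits (out G K) := by
  apply List.ext_getElem
  · simp [outB, adjBits]
  · intro z h1 h2
    have h3 : z < Nof n K * Nof n K := by simpa [outB] using h1
    conv_rhs => simp only [adjBits, List.getElem_ofFn]
    simp only [outB, List.getElem_map, List.getElem_range]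
    rw [Bool.eq_iff_iff]
    simp only [decide_eq_true_eq]
    exact adjB_iff G K (num n K (⟨z, h3⟩ : Fin (Nof n K * Nof n K)).divNat)
      (num n K (⟨z, h3⟩ : Fin (Nof n K * Nof n K)).modNat)

/-- the number of vertices, read off from the length of the input -/
def nOf (w : List Bool) : ℕ := (List.range w.length).countP fun m => Nat.blt (2 * (m * m)) w.length

theorem nOf_le (w : List Bool) : nOf w ≤ w.length :=
  List.countP_le_length.trans (by simp)

theorem nOf_eq {w : List Bool} {n : ℕ} (h : w.length = n * n + n * n) : nOf w = n := by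
  have hn : n ≤ n * n + n * n := by nlinarith
  obtain ⟨r, hr⟩ := Nat.exists_eq_add_of_le hn
  rw [nOf, h]
  conv_lhs => arg 2; rw [hr]
  rw [List.range_add, List.countP_append, List.countP_eq_length.2, List.countP_eq_zero.2]
  · simp
  · intro m hm
    simp only [List.mem_map, List.mem_range] at hm
    obtain ⟨a, -, rfl⟩ := hm
    simp only [Nat.blt_eq, not_lt]
    nlinarith
  · intro m hm
    simp only [List.mem_range] at hm
    simp only [Nat.blt_eq]
    nlinarith

/-- the reduction -/
def red (C : ℕ) (w : List Bool) : List Bool :=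
  outB (w.take (nOf w * nOf w)) (nOf w) (Kof C (nOf w)) ++
    outB (w.drop (nOf w * nOf w)) (nOf w) (Kof C (nOf w))

theorem red_eq (C : ℕ) {n : ℕ} (G H : SimpleGraph (Fin n)) :
    red C (adjBits G ++ adjBits H) = adjBits (out G (Kof C n)) ++ adjBits (out H (Kof C n)) := by
  have h : nOf (adjBits G ++ adjBits H) = n := nOf_eq (by simp [adjBits_length])
  rw [red, h, List.take_left' (adjBits_length G), List.drop_left' (adjBits_length G), outB_eq,
    outB_eq]

theorem nOf_pt : PT nOf := by
  unfold nOf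
  have h := PT.rangeLength (α := List Bool) (l := fun w => w) PT.id
  fun_prop

theorem nOf_ps : PS nOf := PB.self.mono (fun w => (nOf_le w).trans (length_lt_size w).le)

theorem Kof_pt (C : ℕ) : PT (fun w => Kof C (nOf w)) := by
  have h := nOf_pt
  have h1 : PT (fun w => Qof C (nOf w)) := by unfold Qof; fun_prop
  have h2 : PT (fun w => Qof C (nOf w) ^ 6) := PT.pow h1 (PT.const 6) (PB.const 6)
  unfold Kof
  fun_prop

theorem Kof_ps (C : ℕ) : PS (fun w => Kof C (nOf w)) := by
  have h := nOf_ps
  have h1 : PS (fun w => Qof C (nOf w)) :=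
    (PB.const C).mul ((h.mul (h.add (PB.const 2))).add (h.add (PB.const 2)))
  exact ((PB.const 2).mul ((PB.const 4).mul (h1.pow 6))).add (PB.const 1)

@[fun_prop] theorem gapB_pt {α : Type} [Enc α] {g : α → List Bool} {n K k i j i' j' : α → ℕ}
    (hg : PT g) (hn : PT n) (hK : PT K) (hk : PT k) (hi : PT i) (hj : PT j) (hi' : PT i')
    (hj' : PT j') : PT (fun a => gapB (g a) (n a) (K a) (k a) (i a) (j a) (i' a) (j' a)) := by
  unfold gapB; fun_prop

theorem adjB_pt {α : Type} [Enc α] {g : α → List Bool} {n K k i j k' i' j' : α → ℕ}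
    (hg : PT g) (hn : PT n) (hK : PT K) (hk : PT k) (hi : PT i) (hj : PT j) (hk' : PT k')
    (hi' : PT i') (hj' : PT j') :
    PT (fun a => adjB (g a) (n a) (K a) (k a) (i a) (j a) (k' a) (i' a) (j' a)) := by
  unfold adjB; fun_prop

theorem entry_pt {α : Type} [Enc α] {g : α → List Bool} {n K x y : α → ℕ}
    (hg : PT g) (hn : PT n) (hK : PT K) (hx : PT x) (hy : PT y) :
    PT (fun a => entry (g a) (n a) (K a) (x a) (y a)) := by
  unfold entry
  apply adjB_pt <;> fun_prop

theorem outB_pt {g : List Bool → List Bool} {n K : List Bool → ℕ} (hg : PT g) (hn : PT n)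
    (hK : PT K) (hn' : PS n) (hK' : PS K) : PT (fun w => outB (g w) (n w) (K w)) := by
  have h1 : PT (fun w => Nof (n w) (K w)) := by unfold Nof; fun_prop
  have h2 : PS (fun w => Nof (n w) (K w)) :=
    (hK'.add (PB.const 2)).mul (hn'.mul (hn'.add (PB.const 2)))
  have h3 := PT.range (PT.mul h1 h1) (h2.mul h2)
  have h4 : PT (fun p : List Bool × ℕ => Nof (n p.1) (K p.1)) := h1.comp (PT.fst PT.id)
  refine PT.map ?_ h3
  exact entry_pt (hg.comp (PT.fst PT.id)) (hn.comp (PT.fst PT.id)) (hK.comp (PT.fst PT.id))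
    (PT.div (PT.snd PT.id) h4) (PT.mod (PT.snd PT.id) h4)

theorem red_pt (C : ℕ) : PT (red C) := by
  have h := nOf_pt
  exact PT.append (outB_pt (by fun_prop) h (Kof_pt C) nOf_ps (Kof_ps C))
    (outB_pt (by fun_prop) h (Kof_pt C) nOf_ps (Kof_ps C))

theorem out_iff (C : ℕ) {n : ℕ} (G H : SimpleGraph (Fin n)) (hC : 1 ≤ C) :
    Nonempty (G ≃g H) ↔ Nonempty (out G (Kof C n) ≃g out H (Kof C n)) := by
  have hK : 2 ≤ Kof C n := by
    have : 1 ≤ Qof C n := Nat.mul_pos hC (by omega)
    have : 1 ≤ Qof C n ^ 6 := Nat.one_le_pow _ _ this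
    unfold Kof; omega
  rw [layered_iff hK]
  have a := SimpleGraph.Iso.comap (num n (Kof C n)) (layered G (Kof C n))
  have b := SimpleGraph.Iso.comap (num n (Kof C n)) (layered H (Kof C n))
  exact ⟨fun ⟨φ⟩ => ⟨a.trans (φ.trans b.symm)⟩, fun ⟨φ⟩ => ⟨a.symm.trans (φ.trans b)⟩⟩

end Pool.Agent.P.MP_f1a348_lc
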