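import Mathlib
import Pool.Agent.P.MP_f1a348_lc.Bisim

namespace Pool.Agent.P.MP_f1a348_lc

open Finset

abbrev Z2 := ZMod 2

/-- A cubic multigraph: a fixed-point-free involution of the half-edges. -/
structure Cubic (V : Type) where
  mu : V × Fin 3 → V × Fin 3
  invol : ∀ h, mu (mu h) = h
  ne : ∀ h, mu h ≠ h

variable {V : Type} [Fintype V] [DecidableEq V] (M : Cubic V)

/-- Vertices of the compact CFI graph, with `r` isolated vertices added. -/
abbrev Vtx (V : Type) (r : ℕ) := (V × Z2 × Z2) ⊕ Fin r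

/-- The three bits carried by a vertex. -/
def bits (U : V → Z2) (p : V × Z2 × Z2) : Fin 3 → Z2 :=
  ![p.2.1, p.2.2, U p.1 + p.2.1 + p.2.2]

def Cons (U : V → Z2) (p q : V × Z2 × Z2) : Prop :=
  ∀ i j, M.mu (p.1, i) = (q.1, j) → bits U p i = bits U q j

omit [Fintype V] [DecidableEq V] in
theorem Cons.symm {M : Cubic V} {U : V → Z2} {p q : V × Z2 × Z2} (h : Cons M U p q) :
    Cons M U q p := by
  intro i j e
  refine (h j i ?_).symm
  rw [← e, M.invol]

def Nbr (u v : V) : Prop := ∃ i j, M.mu (u, i) = (v, j)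

omit [Fintype V] [DecidableEq V] in
theorem Nbr.symm {M : Cubic V} {u v : V} (h : Nbr M u v) : Nbr M v u := by
  obtain ⟨i, j, e⟩ := h
  exact ⟨j, i, by rw [← e, M.invol]⟩

def Adj0 (U : V → Z2) (p q : V × Z2 × Z2) : Prop :=
  p.1 ≠ q.1 ∧ Nbr M p.1 q.1 ∧ Cons M U p p ∧ Cons M U q q ∧ Cons M U p q

def AdjS (U : V → Z2) (r : ℕ) : Vtx V r → Vtx V r → Prop
  | Sum.inl p, Sum.inl q => Adj0 M U p q
  | _, _ => False

/-- The compact CFI graph. -/
def cfi (U : V → Z2) (r : ℕ) : SimpleGraph (Vtx V r) where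
  Adj := AdjS M U r
  symm := ⟨by
    rintro (p | p) (q | q) h
    · exact ⟨h.1.symm, h.2.1.symm, h.2.2.2.1, h.2.2.1, h.2.2.2.2.symm⟩
    all_goals exact h⟩
  loopless := ⟨by
    rintro (p | p) h
    · exact h.1 rfl
    · exact h⟩

/-- Flipping bits. -/
def flip0 (t : V × Fin 3 → Z2) (p : V × Z2 × Z2) : V × Z2 × Z2 :=
  (p.1, p.2.1 + t (p.1, 0), p.2.2 + t (p.1, 1))

theorem z2_add_self (a : Z2) : a + a = 0 := CharTwo.add_self_eq_zero a

def flipE (t : V × Fin 3 → Z2) (r : ℕ) : Vtx V r ≃ Vtx V r :=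
  Equiv.sumCongr (Function.Involutive.toPerm (flip0 t) (by
    rintro ⟨v, a, b⟩
    simp [flip0, add_assoc, z2_add_self])) (Equiv.refl _)

omit [Fintype V] [DecidableEq V] in
@[simp] theorem flipE_inl (t : V × Fin 3 → Z2) (r : ℕ) (p : V × Z2 × Z2) :
    flipE t r (Sum.inl p) = Sum.inl (flip0 t p) := rfl

omit [Fintype V] [DecidableEq V] in
@[simp] theorem flipE_inr (t : V × Fin 3 → Z2) (r : ℕ) (p : Fin r) :
    flipE t r (Sum.inr p) = Sum.inr p := rfl

/-- Parity condition. -/
def Par (U : V → Z2) (t : V × Fin 3 → Z2) : Prop := ∀ v, t (v, 0) + t (v, 1) + t (v, 2) = U v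

omit [Fintype V] [DecidableEq V] in
theorem bits_flip {U : V → Z2} {t : V × Fin 3 → Z2} (h : Par U t) (p : V × Z2 × Z2)
    (i : Fin 3) : bits U (flip0 t p) i = bits 0 p i + t (p.1, i) := by
  have h1 := h p.1
  fin_cases i
  · rfl
  · rfl
  · simp only [bits, flip0, ← h1]
    generalize t (p.1, 0) = a
    generalize t (p.1, 1) = b
    generalize hc : t (p.1, 2) = c
    simp only [Fin.reduceFinMk, Matrix.cons_val, hc, Pi.zero_apply]
    generalize p.2.1 = x
    generalize p.2.2 = y
    revert a b x y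
    clear hc
    revert c
    decide

/-- The indicator of a half-edge. -/
def ind (h : V × Fin 3) : V × Fin 3 → Z2 := Pi.single h 1

/-- The indicator of an edge. -/
def edge (h : V × Fin 3) : V × Fin 3 → Z2 := ind h + ind (M.mu h)

/-- The defect of a flip. -/
def defect (t : V × Fin 3 → Z2) : V × Fin 3 → Z2 := fun g => t g + t (M.mu g)

omit [Fintype V] [DecidableEq V] in
theorem defect_add (s t : V × Fin 3 → Z2) : defect M (s + t) = defect M s + defect M t := by
  funext g
  simp only [defect, Pi.add_apply]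
  ring

omit [Fintype V] in
theorem defect_ind (h : V × Fin 3) : defect M (ind h) = edge M h := by
  funext g
  simp only [defect, edge, ind, Pi.add_apply, Pi.single_apply]
  congr 1
  refine if_congr ⟨fun e => ?_, fun e => ?_⟩ rfl rfl
  · rw [← e, M.invol]
  · rw [e, M.invol]

omit [Fintype V] in
theorem edge_mu (h : V × Fin 3) : edge M (M.mu h) = edge M h := by
  rw [edge, M.invol, add_comm, edge]

omit [Fintype V] in
theorem par_ind (v : V) (i : Fin 3) : Par (Pi.single v 1) (ind (v, i)) := by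
  intro w
  simp only [ind, Pi.single_apply, Prod.mk.injEq]
  by_cases e : w = v
  · fin_cases i <;> simp [e]
  · simp [e]

omit [Fintype V] [DecidableEq V] in
theorem Par.add {U U' : V → Z2} {s t : V × Fin 3 → Z2} (hs : Par U s) (ht : Par U' t) :
    Par (U + U') (s + t) := by
  intro v
  simp only [Pi.add_apply, ← hs v, ← ht v]
  ring

theorem fun_add_self {α : Type} (f : α → Z2) : f + f = 0 := by
  funext a
  exact z2_add_self _

/-- One step avoiding `X`. -/
def Step (X : Finset V) (a b : V) : Prop := a ∉ X ∧ b ∉ X ∧ Nbr M a b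

/-- Reachability avoiding `X`. -/
def Reach (X : Finset V) : V → V → Prop := Relation.ReflTransGen (Step M X)

omit [Fintype V] in
theorem move (X : Finset V) {a c : V} (ha : a ∉ X) (h : Reach M X a c) (i : Fin 3) :
    ∀ j : Fin 3, ∃ s : V × Fin 3 → Z2, Par 0 s ∧ defect M s = edge M (a, i) + edge M (c, j) ∧
      ∀ g : V × Fin 3, g.1 ∈ X → s g = 0 := by
  have loc : ∀ (b : V) (i j : Fin 3), b ∉ X → ∃ s : V × Fin 3 → Z2, Par 0 s ∧
      defect M s = edge M (b, i) + edge M (b, j) ∧ ∀ g : V × Fin 3, g.1 ∈ X → s g = 0 := by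
    intro b i j hb
    refine ⟨ind (b, i) + ind (b, j), ?_, by rw [defect_add, defect_ind, defect_ind], ?_⟩
    · have := (par_ind b i).add (par_ind b j)
      rwa [fun_add_self] at this
    · intro g hg
      have h1 : ∀ l, g ≠ (b, l) := fun l e => hb (by rw [e] at hg; exact hg)
      simp [ind, h1]
  induction h with
  | refl => exact fun j => loc a i j ha
  | tail _ hbc ih =>
    rename_i b c _
    intro j
    obtain ⟨-, hc, i', j', e⟩ := hbc
    obtain ⟨s₁, p1, d1, z1⟩ := ih i'
    obtain ⟨s₂, p2, d2, z2⟩ := loc c j' j hc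
    refine ⟨s₁ + s₂, by simpa using p1.add p2, ?_, fun g hg => by simp [z1 g hg, z2 g hg]⟩
    rw [defect_add, d1, d2, ← e, edge_mu, add_assoc, ← add_assoc (edge M (b, i')),
      fun_add_self, zero_add]

/-- A haven of order `K`. -/
structure Haven (K : ℕ) (Big : Finset V → V → Prop) : Prop where
  ex : ∀ X : Finset V, X.card ≤ K → ∃ a, Big X a
  uniq : ∀ (X : Finset V) a b, X.card ≤ K → Big X a → Big X b → Reach M X a b
  mono : ∀ (X Y : Finset V) a, X ⊆ Y → Big Y a → Big X a
  notin : ∀ (X : Finset V) a, Big X a → a ∉ X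

/-- The class of a vertex. -/
def cls {r : ℕ} : Vtx V r → Finset V
  | Sum.inl p => {p.1}
  | Sum.inr _ => ∅

def classes {r k : ℕ} (u : Fin k → Vtx V r) : Finset V := univ.biUnion fun i => cls (u i)

omit [Fintype V] [DecidableEq V] in
theorem card_cls {r : ℕ} (p : Vtx V r) : (cls p).card ≤ 1 := by
  cases p <;> simp [cls]

omit [Fintype V] in
theorem card_classes {r k : ℕ} (u : Fin k → Vtx V r) : (classes u).card ≤ k := by
  refine card_biUnion_le.trans ?_
  calc ∑ i, (cls (u i)).card ≤ ∑ _i : Fin k, 1 := sum_le_sum fun i _ => card_cls _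
    _ = k := by simp

omit [Fintype V] in
theorem cls_subset {r k : ℕ} (u : Fin k → Vtx V r) (i : Fin k) : cls (u i) ⊆ classes u :=
  subset_biUnion_of_mem (fun i => cls (u i)) (mem_univ i)

omit [Fintype V] in
theorem classes_update {r k : ℕ} (u : Fin k → Vtx V r) (i : Fin k) (w : Vtx V r) :
    classes (Function.update u i w) ⊆ classes u ∪ cls w := by
  intro a ha
  obtain ⟨j, -, hj⟩ := mem_biUnion.mp ha
  by_cases e : j = i
  · subst e
    rw [Function.update_self] at hj
    exact mem_union_right _ hj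
  · rw [Function.update_of_ne e] at hj
    exact mem_union_left _ (cls_subset u j hj)

omit [Fintype V] [DecidableEq V] in
theorem cls_flip {r : ℕ} (t : V × Fin 3 → Z2) (p : Vtx V r) : cls (flipE t r p) = cls p := by
  cases p <;> rfl

omit [Fintype V] [DecidableEq V] in
theorem flip_congr {r : ℕ} {s t : V × Fin 3 → Z2} (p : Vtx V r)
    (h : ∀ g : V × Fin 3, g.1 ∈ cls p → s g = t g) : flipE s r p = flipE t r p := by
  cases p with
  | inl p =>
    simp only [flipE_inl, flip0]
    rw [h (p.1, 0) (by simp [cls]), h (p.1, 1) (by simp [cls])]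
  | inr p => rfl

omit [Fintype V] in
theorem adj_flip {U : V → Z2} {t : V × Fin 3 → Z2} {h : V × Fin 3} (hp : Par U t)
    (hd : defect M t = edge M h) {X : Finset V} (hh : h.1 ∉ X) {r : ℕ} (p q : Vtx V r)
    (hpX : cls p ⊆ X) (hqX : cls q ⊆ X) :
    (cfi M 0 r).Adj p q ↔ (cfi M U r).Adj (flipE t r p) (flipE t r q) := by
  have key : ∀ p q : V × Z2 × Z2, p.1 ∈ X → q.1 ∈ X →
      (Cons M 0 p q ↔ Cons M U (flip0 t p) (flip0 t q)) := by
    intro p q hp' hq'
    refine forall_congr' fun i => forall_congr' fun j => imp_congr_right fun e => ?_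
    have e' : M.mu (p.1, i) = (q.1, j) := e
    rw [bits_flip hp, bits_flip hp]
    have h1 := congrFun hd (p.1, i)
    have n1 : (p.1, i) ≠ h := fun e => hh (by rw [← e]; exact hp')
    have n2 : (p.1, i) ≠ M.mu h := fun e => hh (by
      have : h = (q.1, j) := by rw [← e', e, M.invol]
      rw [this]; exact hq')
    simp only [defect, edge, ind, Pi.add_apply, Pi.single_apply, n1, n2, if_false, e',
      add_zero] at h1
    have h2 : t (p.1, i) = t (q.1, j) := by
      rw [← add_zero (t (p.1, i)), ← z2_add_self (t (q.1, j)), ← add_assoc, h1, zero_add]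
    rw [h2, add_left_inj]
  rcases p with p | p <;> rcases q with q | q
  · have hp' : p.1 ∈ X := hpX (by simp [cls])
    have hq' : q.1 ∈ X := hqX (by simp [cls])
    show Adj0 M 0 p q ↔ Adj0 M U (flip0 t p) (flip0 t q)
    simp only [Adj0, key p p hp' hp', key q q hq' hq', key p q hp' hq']
    rfl
  all_goals exact Iff.rfl

omit [Fintype V] in
theorem relocate {K : ℕ} {Big : Finset V → V → Prop} (H : Haven M K Big) {U : V → Z2}
    {t : V × Fin 3 → Z2} {h : V × Fin 3} (hp : Par U t) (hd : defect M t = edge M h)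
    {X Y : Finset V} (hXY : X ⊆ Y) (hY : Y.card ≤ K) (hb : Big X h.1) :
    ∃ t' h', Par U t' ∧ defect M t' = edge M h' ∧ Big Y h'.1 ∧
      ∀ g : V × Fin 3, g.1 ∈ X → t' g = t g := by
  obtain ⟨c, hc⟩ := H.ex Y hY
  have hr := H.uniq X _ _ ((card_le_card hXY).trans hY) hb (H.mono _ _ _ hXY hc)
  obtain ⟨s, p1, d1, z1⟩ := move M X (H.notin _ _ hb) hr h.2 0
  refine ⟨t + s, (c, 0), by simpa using hp.add p1, ?_, hc, fun g hg => by simp [z1 g hg]⟩
  rw [defect_add, hd, d1, ← add_assoc, fun_add_self, zero_add]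

theorem cfi_bisim {K : ℕ} {Big : Finset V → V → Prop} (H : Haven M K Big) {v₀ : V}
    (hv : Big ∅ v₀) (r k : ℕ) (hk : k + 1 ≤ K) :
    Bisim (cfi M 0 r) (cfi M (Pi.single v₀ 1) r) k (fun u v => ∃ t h, Par (Pi.single v₀ 1) t ∧
      defect M t = edge M h ∧ Big (classes u) h.1 ∧ ∀ i, v i = flipE t r (u i)) := by
  refine ⟨?_, ?_, ?_⟩
  · rintro u v ⟨t, h, hp, hd, hb, hv⟩ i j
    rw [hv i, hv j]
    exact ⟨by simp, adj_flip M hp hd (H.notin _ _ hb) _ _ (cls_subset u i) (cls_subset u j)⟩
  · rintro u v ⟨t, h, hp, hd, hb, hv⟩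
    have hex : ∀ a : V, ∃ t' h', Par (Pi.single v₀ 1) t' ∧ defect M t' = edge M h' ∧
        Big (classes u ∪ {a}) h'.1 ∧ ∀ g : V × Fin 3, g.1 ∈ classes u → t' g = t g := by
      intro a
      refine relocate M H hp hd subset_union_left ?_ hb
      have := card_union_le (classes u) {a}
      have := card_classes u
      simp only [card_singleton] at *
      omega
    choose T Hh h1 h2 h3 h4 using hex
    refine ⟨flipE (fun g => T g.1 g) r, fun w i => ?_⟩
    have main : ∀ t' h', Par (Pi.single v₀ 1) t' → defect M t' = edge M h' →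
        Big (classes u ∪ cls w) h'.1 → (∀ g : V × Fin 3, g.1 ∈ classes u → t' g = t g) →
        (u i = w ↔ v i = flipE t' r w) ∧
        ((cfi M 0 r).Adj (u i) w ↔ (cfi M (Pi.single v₀ 1) r).Adj (v i) (flipE t' r w)) ∧
        ∃ t h, Par (Pi.single v₀ 1) t ∧ defect M t = edge M h ∧
          Big (classes (Function.update u i w)) h.1 ∧
          ∀ j, Function.update v i (flipE t' r w) j = flipE t r (Function.update u i w j) := by
      intro t' h' q1 q2 q3 q4
      have hv' : ∀ j, v j = flipE t' r (u j) := fun j => by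
        rw [hv j]
        exact flip_congr _ fun g hg => (q4 g (cls_subset u j hg)).symm
      refine ⟨by rw [hv' i]; simp, ?_, t', h', q1, q2, H.mono _ _ _ (classes_update u i w) q3, ?_⟩
      · rw [hv' i]
        exact adj_flip M q1 q2 (H.notin _ _ q3) _ _
          ((cls_subset u i).trans subset_union_left) subset_union_right
      · intro j
        by_cases e : j = i
        · subst e
          simp
        · rw [Function.update_of_ne e, Function.update_of_ne e, hv' j]
    cases w with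
    | inl p => exact main (T p.1) (Hh p.1) (h1 _) (h2 _) (h3 _) (h4 _)
    | inr p => exact main t h hp hd (by simpa [cls] using hb) (fun _ _ => rfl)
  · have hex : ∀ X : Finset V, ∃ t h, X.card ≤ K → Par (Pi.single v₀ 1) t ∧
        defect M t = edge M h ∧ Big X h.1 := by
      intro X
      by_cases hX : X.card ≤ K
      · obtain ⟨t, h, q1, q2, q3, -⟩ := relocate M H (par_ind v₀ 0) (defect_ind M (v₀, 0))
          (empty_subset X) hX hv
        exact ⟨t, h, fun _ => ⟨q1, q2, q3⟩⟩
      · exact ⟨0, (v₀, 0), fun h => absurd h hX⟩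
    choose T Hh hT using hex
    have hinj : Function.Injective
        (fun (u : Fin k → Vtx V r) (i : Fin k) => flipE (T (classes u)) r (u i)) := by
      intro u u' e
      have e1 : classes u = classes u' := by
        unfold classes
        congr 1
        funext i
        have := congrArg cls (congrFun e i)
        simpa only [cls_flip] using this
      funext i
      have := congrFun e i
      simp only [e1] at this
      exact (flipE _ r).injective this
    refine ⟨Equiv.ofBijective _ (Finite.injective_iff_bijective.mp hinj), fun u => ?_⟩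
    obtain ⟨q1, q2, q3⟩ := hT (classes u) ((card_classes u).trans (by omega))
    exact ⟨_, _, q1, q2, q3, fun _ => rfl⟩

/-! ### The two graphs are not isomorphic -/

/-- Homomorphisms from the base graph. -/
def Homs (U : V → Z2) (r : ℕ) : Set (V → Vtx V r) :=
  {φ | ∀ u v, u ≠ v → Nbr M u v → (cfi M U r).Adj (φ u) (φ v)}

omit [Fintype V] [DecidableEq V] in
theorem exists_nbr (u : V) : ∃ v, u ≠ v ∧ Nbr M u v := by
  by_contra hcon
  push Not at hcon
  have h1 : ∀ i, (M.mu (u, i)).1 = u := fun i => by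
    by_contra hne
    exact hcon _ (Ne.symm hne) ⟨i, (M.mu (u, i)).2, rfl⟩
  have h2 : ∀ i, M.mu (u, i) = (u, (M.mu (u, i)).2) := fun i => Prod.ext (h1 i) rfl
  have h3 : ∀ f : Fin 3 → Fin 3, (∀ i, f (f i) = i) → ∃ i, f i = i := by decide
  obtain ⟨i, hi⟩ := h3 (fun i => (M.mu (u, i)).2) (fun i => by
    rw [← h2 i, M.invol])
  exact M.ne (u, i) (by rw [h2 i, hi])

omit [Fintype V] [DecidableEq V] in
theorem homs_inl {U : V → Z2} {r : ℕ} {φ : V → Vtx V r} (h : φ ∈ Homs M U r) (u : V) :
    ∃ p, φ u = Sum.inl p ∧ Cons M U p p := by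
  obtain ⟨v, h1, h2⟩ := exists_nbr M u
  have := h u v h1 h2
  rcases e : φ u with p | p <;> rcases e' : φ v with q | q <;> rw [e, e'] at this
  · exact ⟨p, rfl, this.2.2.1⟩
  all_goals exact this.elim

/-- Difference of two vertices in the same class. -/
def sub0 {r : ℕ} : Vtx V r → Vtx V r → Vtx V r
  | Sum.inl p, Sum.inl q => Sum.inl (p.1, p.2.1 + q.2.1, p.2.2 + q.2.2)
  | p, _ => p

omit [Fintype V] [DecidableEq V] in
theorem bits_sub (U : V → Z2) (p q : V × Z2 × Z2) (e : p.1 = q.1) (i : Fin 3) :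
    bits 0 (p.1, p.2.1 + q.2.1, p.2.2 + q.2.2) i = bits U p i + bits U q i := by
  fin_cases i
  · rfl
  · rfl
  · simp only [bits, e, Fin.reduceFinMk, Matrix.cons_val, Pi.zero_apply]
    generalize U q.1 = a
    generalize p.2.1 = b
    generalize p.2.2 = c
    generalize q.2.1 = d
    generalize q.2.2 = f
    revert a b c d f
    decide

theorem no_section (v₀ : V) (r : ℕ) (φ : V → Vtx V r) (h : φ ∈ Homs M (Pi.single v₀ 1) r) :
    ¬ ∀ u, cls (φ u) = {u} := by
  intro hc
  choose p hp hg using homs_inl M h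
  have hp1 : ∀ u, (p u).1 = u := fun u => by
    have := hc u
    rw [hp u] at this
    simpa [cls] using this
  set x : V × Fin 3 → Z2 := fun g => bits (Pi.single v₀ 1) (p g.1) g.2 with hx
  have hmu : ∀ g, x (M.mu g) = x g := by
    rintro ⟨u, i⟩
    by_cases e : u = (M.mu (u, i)).1
    · refine Eq.trans ?_ (hg u i (M.mu (u, i)).2 ?_).symm
      · simp only [hx]
        rw [← e]
      · rw [hp1 u]
        exact Prod.ext e.symm rfl
    · have := h u _ e ⟨i, (M.mu (u, i)).2, rfl⟩
      rw [hp, hp] at this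
      exact (this.2.2.2.2 i (M.mu (u, i)).2 (by rw [hp1, hp1])).symm
  have s0 : ∑ g, x g = 0 :=
    Finset.sum_ninvolution M.mu (fun g => by rw [hmu, z2_add_self]) (fun g _ => M.ne g)
      (fun _ => mem_univ _) M.invol
  have s1 : ∑ g, x g = 1 := by
    rw [Fintype.sum_prod_type]
    have : ∀ u, ∑ i, x (u, i) = (Pi.single v₀ 1 : V → Z2) u := by
      intro u
      simp only [hx, Fin.sum_univ_three, bits, hp1, Matrix.cons_val]
      generalize (Pi.single v₀ 1 : V → Z2) u = a
      generalize (p u).2.1 = b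
      generalize (p u).2.2 = c
      revert a b c
      decide
    simp [this]
  rw [s0] at s1
  exact zero_ne_one s1

theorem homs_lt (v₀ : V) (r : ℕ) : (Homs M (Pi.single v₀ 1) r).ncard < (Homs M 0 r).ncard := by
  classical
  set U : V → Z2 := Pi.single v₀ 1 with hU
  have hex : ∀ ψ : V → Finset V, ∃ φ₀ : V → Vtx V r,
      (∃ φ ∈ Homs M U r, ∀ u, cls (φ u) = ψ u) → φ₀ ∈ Homs M U r ∧ ∀ u, cls (φ₀ u) = ψ u := by
    intro ψ
    by_cases h : ∃ φ ∈ Homs M U r, ∀ u, cls (φ u) = ψ u
    · obtain ⟨φ, h1, h2⟩ := h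
      exact ⟨φ, fun _ => ⟨h1, h2⟩⟩
    · exact ⟨fun u => Sum.inl (u, 0, 0), fun h' => absurd h' h⟩
  choose B hB using hex
  set F : (V → Vtx V r) → (V → Vtx V r) := fun φ u => sub0 (φ u) (B (fun u => cls (φ u)) u)
    with hF
  have hcls : ∀ φ u, cls (F φ u) = cls (φ u) := by
    intro φ u
    simp only [hF]
    rcases φ u with p | p <;> rcases B _ u with q | q <;> rfl
  have hmaps : ∀ φ ∈ Homs M U r, F φ ∈ Homs M 0 r := by
    intro φ hφ u v h1 h2
    obtain ⟨b1, b2⟩ := hB (fun u => cls (φ u)) ⟨φ, hφ, fun _ => rfl⟩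
    have a1 := hφ u v h1 h2
    have a2 := b1 u v h1 h2
    obtain ⟨p, hp, -⟩ := homs_inl M hφ u
    obtain ⟨q, hq, -⟩ := homs_inl M hφ v
    obtain ⟨p', hp', -⟩ := homs_inl M b1 u
    obtain ⟨q', hq', -⟩ := homs_inl M b1 v
    have e1 : p.1 = p'.1 := by
      have := b2 u
      rw [hp', hp] at this
      exact (singleton_inj.mp this).symm
    have e2 : q.1 = q'.1 := by
      have := b2 v
      rw [hq', hq] at this
      exact (singleton_inj.mp this).symm
    simp only [hF]
    rw [hp', hq']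
    rw [hp, hq] at a1 ⊢
    rw [hp', hq'] at a2
    have key : ∀ p q p' q' : V × Z2 × Z2, p.1 = p'.1 → q.1 = q'.1 → Cons M U p q →
        Cons M U p' q' → Cons M 0 (p.1, p.2.1 + p'.2.1, p.2.2 + p'.2.2)
          (q.1, q.2.1 + q'.2.1, q.2.2 + q'.2.2) := by
      intro p q p' q' e1 e2 c1 c2 i j e
      rw [bits_sub U p p' e1, bits_sub U q q' e2, c1 i j e, c2 i j (by rw [← e1, ← e2]; exact e)]
    exact ⟨a1.1, a1.2.1, key _ _ _ _ e1 e1 a1.2.2.1 a2.2.2.1,
      key _ _ _ _ e2 e2 a1.2.2.2.1 a2.2.2.2.1, key _ _ _ _ e1 e2 a1.2.2.2.2 a2.2.2.2.2⟩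
  have hinj : Set.InjOn F (Homs M U r) := by
    intro φ hφ φ' hφ' e
    have e1 : (fun u => cls (φ u)) = fun u => cls (φ' u) := by
      funext u
      rw [← hcls, e, hcls]
    funext u
    have e2 := congrFun e u
    simp only [hF, e1] at e2
    obtain ⟨p, hp, -⟩ := homs_inl M hφ u
    obtain ⟨p', hp', -⟩ := homs_inl M hφ' u
    rw [hp, hp'] at e2 ⊢
    rcases hb : B (fun u => cls (φ' u)) u with q | q <;> rw [hb] at e2
    · simp only [sub0, Sum.inl.injEq, Prod.mk.injEq, add_left_inj] at e2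
      exact congrArg Sum.inl (Prod.ext e2.1 (Prod.ext e2.2.1 e2.2.2))
    · exact e2
  have hz : (fun u => Sum.inl (u, 0, 0) : V → Vtx V r) ∈ Homs M 0 r := by
    intro u v h1 h2
    have : ∀ a b : V, Cons M 0 (a, 0, 0) (b, 0, 0) := by
      intro a b i j _
      fin_cases i <;> fin_cases j <;> simp [bits]
    exact ⟨h1, h2, this _ _, this _ _, this _ _⟩
  rw [← hinj.ncard_image]
  refine Set.ncard_lt_ncard ⟨?_, fun hsub => ?_⟩
  · rintro _ ⟨φ, hφ, rfl⟩
    exact hmaps φ hφ
  · obtain ⟨φ, hφ, e⟩ := hsub hz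
    refine no_section M v₀ r φ hφ fun u => ?_
    rw [← hcls, e]
    rfl

theorem cfi_not_iso (v₀ : V) (r : ℕ) :
    IsEmpty (cfi M 0 r ≃g cfi M (Pi.single v₀ 1) r) := by
  refine ⟨fun e => ?_⟩
  have h1 := homs_lt M v₀ r
  have h2 : (Homs M 0 r).ncard ≤ (Homs M (Pi.single v₀ 1) r).ncard := by
    refine Set.ncard_le_ncard_of_injOn (fun φ => e ∘ φ) ?_ ?_
    · intro φ hφ u v q1 q2
      exact e.map_adj_iff.mpr (hφ u v q1 q2)
    · intro φ _ φ' _ h
      funext u
      exact e.injective (congrFun h u)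
  omega

end Pool.Agent.P.MP_f1a348_lc
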