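import Mathlib

namespace Pool.Agent.P.MP_f1a348_lc

open Finset

/-- Truncated series for `-log (1 - x)`. -/
def hor (x : ℚ) : ℚ :=
  x * (1 + x * (1 / 2 + x * (1 / 3 + x * (1 / 4 + x * (1 / 5 + x * (1 / 6 + x * (1 / 7 + x *
    (1 / 8 + x * (1 / 9 + x * (1 / 10 + x * (1 / 11 + x * (1 / 12))))))))))))

def ser (r : ℚ) : ℚ :=
  if |1 - r| < 1 then |1 - r| ^ 13 / (1 - |1 - r|) - hor (1 - r) else r

theorem log_le_ser (r : ℚ) (hr : 0 < r) : Real.log r ≤ ser r := by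
  unfold ser
  split_ifs with h
  · have h' : |(1 - r : ℝ)| < 1 := by exact_mod_cast h
    have := (abs_le.mp (Real.abs_log_sub_add_sum_range_le h' 12)).2
    rw [sub_sub_cancel] at this
    have e : (∑ i ∈ range 12, (1 - r : ℝ) ^ (i + 1) / (i + 1)) = (hor (1 - r) : ℚ) := by
      simp only [sum_range_succ, range_zero, sum_empty, hor]
      push_cast
      ring
    rw [e] at this
    push_cast at this ⊢
    linarith
  · have : (0 : ℝ) < r := by exact_mod_cast hr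
    linarith [Real.log_le_sub_one_of_pos this]

/-- A rational upper bound for the logarithm. -/
def logUp (r : ℚ) : ℚ :=
  if 1 ≤ r then
    (Nat.log2 ⌊3 * r / 2⌋.toNat : ℚ) * (6931471808 / 10000000000) +
      ser (r / 2 ^ Nat.log2 ⌊3 * r / 2⌋.toNat)
  else ser (r * 2 ^ Nat.log2 ⌊4 / (3 * r)⌋.toNat) -
    (Nat.log2 ⌊4 / (3 * r)⌋.toNat : ℚ) * (6931471803 / 10000000000)

theorem log_le_logUp (r : ℚ) (hr : 0 < r) : Real.log r ≤ logUp r := by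
  have hr' : (0 : ℝ) < r := by exact_mod_cast hr
  unfold logUp
  split_ifs with h
  · generalize Nat.log2 ⌊3 * r / 2⌋.toNat = a
    have h1 := log_le_ser (r / 2 ^ a) (by positivity)
    push_cast at h1 ⊢
    rw [Real.log_div hr'.ne' (by positivity), Real.log_pow] at h1
    have h2 := Real.log_two_lt_d9
    have h3 : (0 : ℝ) ≤ a := Nat.cast_nonneg a
    nlinarith
  · generalize Nat.log2 ⌊4 / (3 * r)⌋.toNat = a
    have h1 := log_le_ser (r * 2 ^ a) (by positivity)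
    push_cast at h1 ⊢
    rw [Real.log_mul hr'.ne' (by positivity), Real.log_pow] at h1
    have h2 := Real.log_two_gt_d9
    have h3 : (0 : ℝ) ≤ a := Nat.cast_nonneg a
    nlinarith

/-- Data of a leaf. -/
structure Dt where
  y0 : ℕ
  y1 : ℕ
  y2 : ℕ
  y3 : ℕ
  q0 : ℕ
  q1 : ℕ
  q2 : ℕ
  q3 : ℕ

def Dt.pos (d : Dt) : Bool :=
  decide (0 < d.y0) && decide (0 < d.y1) && decide (0 < d.y2) && decide (0 < d.y3) &&
    decide (0 < d.q0) && decide (0 < d.q1) && decide (0 < d.q2) && decide (0 < d.q3)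

noncomputable def Dt.y (d : Dt) : Fin 4 → ℝ :=
  ![d.y0 / 10000000, d.y1 / 10000000, d.y2 / 10000000, d.y3 / 10000000]

noncomputable def Dt.q (d : Dt) : Fin 4 → ℝ :=
  ![d.q0 / 10000000, d.q1 / 10000000, d.q2 / 10000000, d.q3 / 10000000]

theorem Dt.y_pos {d : Dt} (h : d.pos = true) (γ : Fin 4) : 0 < d.y γ := by
  simp only [Dt.pos, Bool.and_eq_true, decide_eq_true_eq] at h
  obtain ⟨⟨⟨⟨⟨⟨⟨_, _⟩, _⟩, _⟩, _⟩, _⟩, _⟩, _⟩ := h
  fin_cases γ <;> simp [Dt.y] <;> positivity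

theorem Dt.q_pos {d : Dt} (h : d.pos = true) (γ : Fin 4) : 0 < d.q γ := by
  simp only [Dt.pos, Bool.and_eq_true, decide_eq_true_eq] at h
  obtain ⟨⟨⟨⟨⟨⟨⟨_, _⟩, _⟩, _⟩, _⟩, _⟩, _⟩, _⟩ := h
  fin_cases γ <;> simp [Dt.q] <;> positivity

def term (w : ℚ) (y q : ℕ) : ℚ := w * logUp (w / ((y : ℚ) / 10000000 * ((q : ℚ) / 10000000)))

theorem term_le (w : ℚ) (hw : 0 ≤ w) (y q : ℕ) (hy : 0 < y) (hq : 0 < q) :
    (w : ℝ) * Real.log (w / ((y : ℝ) / 10000000 * ((q : ℝ) / 10000000))) ≤ term w y q := by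
  rcases hw.eq_or_lt with rfl | hw
  · simp [term]
  have := log_le_logUp (w / ((y : ℚ) / 10000000 * ((q : ℚ) / 10000000))) (by positivity)
  unfold term
  push_cast at this ⊢
  exact mul_le_mul_of_nonneg_left this (by exact_mod_cast hw.le)

/-- The test at a corner. -/
def corner (g dl ε : ℚ) (d : Dt) (x y : ℚ) : Bool :=
  decide (0 ≤ x) && decide (0 ≤ y) && decide (0 ≤ 1 - x - y - (g + dl * y)) &&
    decide (0 ≤ g + dl * y) &&
    decide (term x d.y0 d.q0 + term y d.y1 d.q1 + term (1 - x - y - (g + dl * y)) d.y2 d.q2 +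
      term (g + dl * y) d.y3 d.q3 ≤ -ε)

/-- The vector of colour frequencies. -/
def wv (g dl x y : ℝ) : Fin 4 → ℝ := ![x, y, 1 - x - y - (g + dl * y), g + dl * y]

def Good (ε : ℝ) (d : Dt) (w : Fin 4 → ℝ) : Prop :=
  (∀ γ, 0 ≤ w γ) ∧ ∑ γ, w γ * Real.log (w γ / (d.y γ * d.q γ)) ≤ -ε

theorem good_corner {g dl ε : ℚ} {d : Dt} {x y : ℚ} (hp : d.pos = true)
    (h : corner g dl ε d x y = true) : Good ε d (wv g dl x y) := by
  simp only [Dt.pos, Bool.and_eq_true, decide_eq_true_eq] at hp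
  obtain ⟨⟨⟨⟨⟨⟨⟨a0, a1⟩, a2⟩, a3⟩, b0⟩, b1⟩, b2⟩, b3⟩ := hp
  simp only [corner, Bool.and_eq_true, decide_eq_true_eq] at h
  obtain ⟨⟨⟨⟨h0, h1⟩, h2⟩, h3⟩, h4⟩ := h
  constructor
  · intro γ
    fin_cases γ
    · simpa [wv] using h0
    · simpa [wv] using h1
    · show (0 : ℝ) ≤ 1 - x - y - (g + dl * y)
      exact_mod_cast h2
    · show (0 : ℝ) ≤ g + dl * y
      exact_mod_cast h3
  · have t0 := term_le x h0 _ _ a0 b0
    have t1 := term_le y h1 _ _ a1 b1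
    have t2 := term_le _ h2 _ _ a2 b2
    have t3 := term_le _ h3 _ _ a3 b3
    have h5 : ((term x d.y0 d.q0 + term y d.y1 d.q1 +
      term (1 - x - y - (g + dl * y)) d.y2 d.q2 + term (g + dl * y) d.y3 d.q3 : ℚ) : ℝ) ≤
        ((-ε : ℚ) : ℝ) := by exact_mod_cast h4
    push_cast at t2 t3 h5
    simp only [Fin.sum_univ_four, wv, Dt.y, Dt.q, Matrix.cons_val]
    linarith

theorem phi_convex (z a b t : ℝ) (hz : 0 < z) (ha : 0 ≤ a) (hb : 0 ≤ b) (t0 : 0 ≤ t)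
    (t1 : t ≤ 1) : (t * a + (1 - t) * b) * Real.log ((t * a + (1 - t) * b) / z) ≤
      t * (a * Real.log (a / z)) + (1 - t) * (b * Real.log (b / z)) := by
  have e : ∀ w : ℝ, w * Real.log (w / z) = w * Real.log w - w * Real.log z := by
    intro w
    rcases eq_or_ne w 0 with rfl | h
    · simp
    · rw [Real.log_div h hz.ne']
      ring
  have := Real.convexOn_mul_log.2 (Set.mem_Ici.mpr ha) (Set.mem_Ici.mpr hb) t0
    (sub_nonneg.mpr t1) (by ring)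
  simp only [smul_eq_mul] at this
  rw [e, e, e]
  nlinarith

theorem Good.mix {ε : ℝ} {d : Dt} (hp : d.pos = true) {w w' : Fin 4 → ℝ} (h : Good ε d w)
    (h' : Good ε d w') {t : ℝ} (t0 : 0 ≤ t) (t1 : t ≤ 1) :
    Good ε d fun γ => t * w γ + (1 - t) * w' γ := by
  refine ⟨fun γ => add_nonneg (mul_nonneg t0 (h.1 γ)) (mul_nonneg (sub_nonneg.mpr t1) (h'.1 γ)),
    ?_⟩
  refine (sum_le_sum fun γ _ => phi_convex _ _ _ _ (mul_pos (Dt.y_pos hp γ) (Dt.q_pos hp γ))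
    (h.1 γ) (h'.1 γ) t0 t1).trans ?_
  rw [sum_add_distrib, ← mul_sum, ← mul_sum]
  nlinarith [h.2, h'.2]

theorem exists_mix {a b x : ℝ} (h1 : a ≤ x) (h2 : x ≤ b) :
    ∃ t : ℝ, 0 ≤ t ∧ t ≤ 1 ∧ x = t * a + (1 - t) * b := by
  rcases (h1.trans h2).eq_or_lt with e | h
  · exact ⟨0, le_rfl, zero_le_one, by linarith⟩
  · have : 0 < b - a := sub_pos.mpr h
    refine ⟨(b - x) / (b - a), div_nonneg (by linarith) this.le,
      (div_le_one this).mpr (by linarith), ?_⟩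
    field_simp
    ring

theorem good_box {g dl ε : ℝ} {d : Dt} (hp : d.pos = true) {x0 x1 y0 y1 x y : ℝ}
    (c00 : Good ε d (wv g dl x0 y0)) (c01 : Good ε d (wv g dl x0 y1))
    (c10 : Good ε d (wv g dl x1 y0)) (c11 : Good ε d (wv g dl x1 y1))
    (a0 : x0 ≤ x) (a1 : x ≤ x1) (b0 : y0 ≤ y) (b1 : y ≤ y1) : Good ε d (wv g dl x y) := by
  obtain ⟨t, t0, t1, rfl⟩ := exists_mix a0 a1
  obtain ⟨s, s0, s1, rfl⟩ := exists_mix b0 b1
  have := (c00.mix hp c01 s0 s1).mix hp (c10.mix hp c11 s0 s1) t0 t1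
  convert this using 1
  funext γ
  fin_cases γ <;> simp [wv] <;> ring

/-- A bisection tree. -/
inductive Tr where
  | out : Tr
  | leaf : Dt → Tr
  | sx : Tr → Tr → Tr
  | sy : Tr → Tr → Tr

def chk (o : ℚ → ℚ → ℚ → ℚ → Bool) (v : Dt → Bool) (g dl ε : ℚ) : Tr → ℚ → ℚ → ℚ → ℚ → Bool
  | .out, x0, x1, y0, y1 => o x0 x1 y0 y1
  | .leaf d, x0, x1, y0, y1 => d.pos && v d && corner g dl ε d x0 y0 && corner g dl ε d x0 y1 &&
      corner g dl ε d x1 y0 && corner g dl ε d x1 y1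
  | .sx l r, x0, x1, y0, y1 => chk o v g dl ε l x0 ((x0 + x1) / 2) y0 y1 &&
      chk o v g dl ε r ((x0 + x1) / 2) x1 y0 y1
  | .sy l r, x0, x1, y0, y1 => chk o v g dl ε l x0 x1 y0 ((y0 + y1) / 2) &&
      chk o v g dl ε r x0 x1 ((y0 + y1) / 2) y1

theorem chk_sound {o : ℚ → ℚ → ℚ → ℚ → Bool} {v : Dt → Bool} {g dl ε : ℚ} {x y : ℝ}
    (ho : ∀ x0 x1 y0 y1 : ℚ, o x0 x1 y0 y1 = true → (x0 : ℝ) ≤ x → x ≤ x1 → (y0 : ℝ) ≤ y →
      y ≤ y1 → False) (t : Tr) :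
    ∀ x0 x1 y0 y1 : ℚ, chk o v g dl ε t x0 x1 y0 y1 = true → (x0 : ℝ) ≤ x → x ≤ x1 →
      (y0 : ℝ) ≤ y → y ≤ y1 → ∃ d : Dt, d.pos = true ∧ v d = true ∧ Good ε d (wv g dl x y) := by
  induction t with
  | out => exact fun x0 x1 y0 y1 h a0 a1 b0 b1 => (ho x0 x1 y0 y1 h a0 a1 b0 b1).elim
  | leaf d =>
    intro x0 x1 y0 y1 h a0 a1 b0 b1
    simp only [chk, Bool.and_eq_true] at h
    obtain ⟨⟨⟨⟨⟨hp, hv⟩, c00⟩, c01⟩, c10⟩, c11⟩ := h
    exact ⟨d, hp, hv, good_box hp (good_corner hp c00) (good_corner hp c01) (good_corner hp c10)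
      (good_corner hp c11) a0 a1 b0 b1⟩
  | sx l r ihl ihr =>
    intro x0 x1 y0 y1 h a0 a1 b0 b1
    simp only [chk, Bool.and_eq_true] at h
    rcases le_total x (((x0 + x1) / 2 : ℚ) : ℝ) with e | e
    · exact ihl _ _ _ _ h.1 a0 e b0 b1
    · exact ihr _ _ _ _ h.2 e a1 b0 b1
  | sy l r ihl ihr =>
    intro x0 x1 y0 y1 h a0 a1 b0 b1
    simp only [chk, Bool.and_eq_true] at h
    rcases le_total y (((y0 + y1) / 2 : ℚ) : ℝ) with e | e
    · exact ihl _ _ _ _ h.1 a0 a1 b0 e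
    · exact ihr _ _ _ _ h.2 a0 a1 e b1

end Pool.Agent.P.MP_f1a348_lc
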