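import Mathlib
import Pool.Agent.P.MP_f1a348_lc.CFI

namespace Pool.Agent.P.MP_f1a348_lc

open Finset

variable {V : Type} [Fintype V] [DecidableEq V] (M : Cubic V)

/-- The half-edges of the cut edges. -/
def cross (σ : V → Bool) : Finset (V × Fin 3) := univ.filter fun h => σ h.1 ≠ σ (M.mu h).1

omit [DecidableEq V] in
theorem mem_cross {σ : V → Bool} {h : V × Fin 3} : h ∈ cross M σ ↔ σ h.1 ≠ σ (M.mu h).1 := by
  simp [cross]

omit [DecidableEq V] in
theorem mu_mem_cross {σ : V → Bool} {h : V × Fin 3} (hh : h ∈ cross M σ) :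
    M.mu h ∈ cross M σ := by
  rw [mem_cross] at hh ⊢
  rw [M.invol]
  exact hh.symm

/-- Moving a vertex with two cut edges lowers the cut. -/
theorem toggle (σ : V → Bool) (x : V) (i j : Fin 3) (hij : i ≠ j) (hi : (x, i) ∈ cross M σ)
    (hj : (x, j) ∈ cross M σ) :
    (cross M (Function.update σ x (!σ x))).card + 2 ≤ (cross M σ).card := by
  obtain ⟨l, hl⟩ : ∃ l : Fin 3, ∀ a, a = i ∨ a = j ∨ a = l := by
    clear hi hj
    revert i j
    decide
  have ni : (M.mu (x, i)).1 ≠ x := fun e => (mem_cross M).mp hi (by rw [e])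
  have nj : (M.mu (x, j)).1 ≠ x := fun e => (mem_cross M).mp hj (by rw [e])
  set F : Finset (V × Fin 3) := {(x, i), (x, j), M.mu (x, i), M.mu (x, j)} with hF
  have hFc : F.card = 4 := by
    have h1 : (x, i) ≠ (x, j) := fun e => hij (Prod.ext_iff.mp e).2
    have h2 : (x, i) ≠ M.mu (x, i) := fun e => ni (by rw [← e])
    have h3 : (x, i) ≠ M.mu (x, j) := fun e => nj (by rw [← e])
    have h4 : (x, j) ≠ M.mu (x, i) := fun e => ni (by rw [← e])
    have h5 : (x, j) ≠ M.mu (x, j) := fun e => nj (by rw [← e])
    have h6 : M.mu (x, i) ≠ M.mu (x, j) := fun e => h1 (by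
      rw [← M.invol (x, i), e, M.invol])
    rw [hF, card_insert_of_notMem (by simp only [mem_insert, mem_singleton]; tauto),
      card_insert_of_notMem (by simp only [mem_insert, mem_singleton]; tauto),
      card_pair h6]
  have hFs : F ⊆ cross M σ := by
    intro g hg
    simp only [hF, mem_insert, mem_singleton] at hg
    rcases hg with rfl | rfl | rfl | rfl
    exacts [hi, hj, mu_mem_cross M hi, mu_mem_cross M hj]
  have key : ∀ g ∈ cross M (Function.update σ x (!σ x)), g.1 = x → g = (x, l) := by
    rintro ⟨y, a⟩ hg rfl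
    have aux : ∀ b, (y, b) ∈ cross M σ → (M.mu (y, b)).1 ≠ y →
        (y, b) ∉ cross M (Function.update σ y (!σ y)) := by
      intro b hb nb hb'
      rw [mem_cross] at hb hb'
      rw [Function.update_self, Function.update_of_ne nb] at hb'
      revert hb hb'
      cases σ y <;> cases σ (M.mu (y, b)).1 <;> simp
    rcases hl a with rfl | rfl | rfl
    · exact absurd hg (aux _ hi ni)
    · exact absurd hg (aux _ hj nj)
    · rfl
  have hsub : cross M (Function.update σ x (!σ x)) ⊆
      (cross M σ \ F) ∪ {(x, l), M.mu (x, l)} := by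
    intro g hg
    by_cases e1 : g.1 = x
    · exact mem_union_right _ (by simp [key g hg e1])
    by_cases e2 : (M.mu g).1 = x
    · have := key _ (mu_mem_cross M hg) e2
      exact mem_union_right _ (by rw [← this, M.invol]; simp)
    refine mem_union_left _ (mem_sdiff.mpr ⟨?_, ?_⟩)
    · rw [mem_cross] at hg ⊢
      rwa [Function.update_of_ne e1, Function.update_of_ne e2] at hg
    · simp only [hF, mem_insert, mem_singleton]
      rintro (rfl | rfl | rfl | rfl)
      · exact e1 rfl
      · exact e1 rfl
      · exact e2 (by rw [M.invol])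
      · exact e2 (by rw [M.invol])
  have h1 := card_le_card hsub
  have h2 := card_union_le (cross M σ \ F) {(x, l), M.mu (x, l)}
  have h3 := card_sdiff_add_card_eq_card hFs
  have h4 : ({(x, l), M.mu (x, l)} : Finset (V × Fin 3)).card ≤ 2 := card_le_two
  omega

/-- Every vertex has at most one cut edge. -/
def LocOpt (σ : V → Bool) : Prop :=
  ∀ v i j, (v, i) ∈ cross M σ → (v, j) ∈ cross M σ → i = j

/-- No locally optimal, nearly balanced, small cut. -/
def NoBi (K L : ℕ) : Prop :=
  ∀ σ : V → Bool, LocOpt M σ → ∀ d : ℕ, (cross M σ).card + d ≤ 2 * K →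
    L ≤ (univ.filter fun v => σ v = true).card + d →
    L ≤ (univ.filter fun v => σ v = false).card + d → False

/-- No separator of size `K` into three small parts. -/
def NoTri (K L : ℕ) : Prop :=
  ∀ χ : V → Fin 4, (univ.filter fun v => χ v = 3).card = K →
    (∀ i, i ≠ 3 → (univ.filter fun v => χ v = i).card ≤ L) →
    (∀ h : V × Fin 3, χ h.1 = χ (M.mu h).1 ∨ χ h.1 = 3 ∨ χ (M.mu h).1 = 3) → False

theorem no_small_cut {K L : ℕ} (H : NoBi M K L) (σ₀ : V → Bool) (hc : (cross M σ₀).card ≤ 2 * K)
    (h1 : L ≤ (univ.filter fun v => σ₀ v = true).card)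
    (h2 : L ≤ (univ.filter fun v => σ₀ v = false).card) : False := by
  obtain ⟨σ, -, hmin⟩ := exists_min_image (univ : Finset (V → Bool))
    (fun σ => (cross M σ).card + (univ.filter fun v => σ v ≠ σ₀ v).card) univ_nonempty
  have hb : ∀ b, (univ.filter fun v => σ₀ v = b).card ≤
      (univ.filter fun v => σ v = b).card + (univ.filter fun v => σ v ≠ σ₀ v).card := by
    intro b
    refine (card_le_card ?_).trans (card_union_le _ _)
    intro v hv
    simp only [mem_union, mem_filter, mem_univ, true_and] at hv ⊢
    by_cases e : σ v = σ₀ v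
    · exact Or.inl (e.trans hv)
    · exact Or.inr e
  refine H σ ?_ (univ.filter fun v => σ v ≠ σ₀ v).card ?_ (h1.trans (hb _)) (h2.trans (hb _))
  · intro v i j hi hj
    by_contra hij
    have q1 := toggle M σ v i j hij hi hj
    have q2 := hmin (Function.update σ v (!σ v)) (mem_univ _)
    have q3 : (univ.filter fun w => Function.update σ v (!σ v) w ≠ σ₀ w).card ≤
        (univ.filter fun w => σ w ≠ σ₀ w).card + 1 := by
      refine (card_le_card ?_).trans (card_insert_le v _)
      intro w hw
      by_cases e : w = v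
      · simp [e]
      · simp only [mem_filter, mem_univ, true_and, Function.update_of_ne e] at hw
        simp [hw]
    omega
  · have := hmin σ₀ (mem_univ _)
    have e : (univ.filter fun v => σ₀ v ≠ σ₀ v) = ∅ := by simp
    rw [e, card_empty] at this
    omega

/-- `A` is a union of components of the graph minus `X`. -/
def Closed (X A : Finset V) : Prop :=
  (∀ a ∈ A, a ∉ X) ∧ ∀ h : V × Fin 3, h.1 ∈ A → (M.mu h).1 ∈ A ∨ (M.mu h).1 ∈ X

theorem small_or_small {K L : ℕ} (H : NoBi M K L) {X A : Finset V} (hX : X.card ≤ K)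
    (hA : Closed M X A) : A.card < L ∨ (univ \ (X ∪ A)).card < L := by
  by_contra hcon
  push Not at hcon
  obtain ⟨σ, hσ, hmin⟩ := exists_min_image
    (univ.filter fun σ : V → Bool => ∀ v, v ∉ X → σ v = decide (v ∈ A))
    (fun σ => (cross M σ).card) ⟨fun v => decide (v ∈ A), by simp⟩
  simp only [mem_filter, mem_univ, true_and] at hσ hmin
  refine no_small_cut M H σ ?_ (hcon.1.trans (card_le_card ?_)) (hcon.2.trans (card_le_card ?_))
  · set C := (cross M σ).filter fun h => h.1 ∈ X with hC
    have c1 : C.card ≤ X.card := by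
      refine card_le_card_of_injOn (fun h => h.1) (fun h hh => (mem_filter.mp hh).2) ?_
      rintro ⟨v, i⟩ h1 ⟨w, j⟩ h2 e
      obtain rfl : v = w := e
      by_contra hne
      have hij : i ≠ j := fun e => hne (by rw [e])
      have q1 := toggle M σ v i j hij (mem_filter.mp h1).1 (mem_filter.mp h2).1
      have q2 := hmin (Function.update σ v (!σ v)) (fun w hw => by
        rw [Function.update_of_ne (fun e => hw (by rw [e]; exact (mem_filter.mp h1).2))]
        exact hσ w hw)
      omega
    have c2 : cross M σ ⊆ C ∪ C.image M.mu := by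
      intro h hh
      by_cases e1 : h.1 ∈ X
      · exact mem_union_left _ (mem_filter.mpr ⟨hh, e1⟩)
      by_cases e2 : (M.mu h).1 ∈ X
      · exact mem_union_right _ (mem_image.mpr
          ⟨M.mu h, mem_filter.mpr ⟨mu_mem_cross M hh, e2⟩, M.invol h⟩)
      exfalso
      rw [mem_cross, hσ _ e1, hσ _ e2] at hh
      apply hh
      rw [decide_eq_decide]
      refine ⟨fun a => (hA.2 h a).resolve_right e2, fun a => ?_⟩
      have := hA.2 (M.mu h) a
      rw [M.invol] at this
      exact this.resolve_right e1
    have c3 := card_le_card c2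
    have c4 := card_union_le C (C.image M.mu)
    have c5 : (C.image M.mu).card ≤ C.card := card_image_le
    omega
  · intro v hv
    simp [hσ v (hA.1 v hv), hv]
  · intro v hv
    simp only [mem_sdiff, mem_univ, mem_union, true_and, not_or] at hv
    simp [hσ v hv.1, hv.2]

open Classical in
/-- The component of `a`. -/
noncomputable def comp (X : Finset V) (a : V) : Finset V := univ.filter fun b => Reach M X a b

omit [DecidableEq V] in
theorem mem_comp {X : Finset V} {a b : V} : b ∈ comp M X a ↔ Reach M X a b := by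
  simp [comp]

omit [Fintype V] [DecidableEq V] in
theorem Reach.symm {M : Cubic V} {X : Finset V} {a b : V} (h : Reach M X a b) :
    Reach M X b a := by
  induction h with
  | refl => exact Relation.ReflTransGen.refl
  | tail _ h ih => exact Relation.ReflTransGen.head ⟨h.2.1, h.1, h.2.2.symm⟩ ih

omit [Fintype V] [DecidableEq V] in
theorem Reach.notin {M : Cubic V} {X : Finset V} {a b : V} (h : Reach M X a b) (ha : a ∉ X) :
    b ∉ X := by
  induction h with
  | refl => exact ha
  | tail _ h _ => exact h.2.1

theorem closed_comp {X : Finset V} {a : V} (ha : a ∉ X) : Closed M X (comp M X a) := by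
  refine ⟨fun b hb => ((mem_comp M).mp hb).notin ha, fun h hh => ?_⟩
  by_cases e : (M.mu h).1 ∈ X
  · exact Or.inr e
  · have h1 := (mem_comp M).mp hh
    exact Or.inl ((mem_comp M).mpr (h1.tail ⟨h1.notin ha, e, h.2, (M.mu h).2, rfl⟩))

/-- `a` lies in a big component. -/
def Big (L : ℕ) (X : Finset V) (a : V) : Prop := a ∉ X ∧ L ≤ (comp M X a).card

theorem big_mono {L : ℕ} (X Y : Finset V) (a : V) (h : X ⊆ Y) (hb : Big M L Y a) :
    Big M L X a := by
  refine ⟨fun e => hb.1 (h e), hb.2.trans (card_le_card fun b hb' => ?_)⟩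
  rw [mem_comp] at hb' ⊢
  induction hb' with
  | refl => exact Relation.ReflTransGen.refl
  | tail _ s ih => exact ih.tail ⟨fun e => s.1 (h e), fun e => s.2.1 (h e), s.2.2⟩

theorem exists_big {K L : ℕ} (H : NoBi M K L) (H3 : NoTri M K L) (hL : 0 < L) {X : Finset V}
    (hX : X.card = K) : ∃ a, Big M L X a := by
  classical
  by_contra hcon
  push Not at hcon
  obtain ⟨A, hA, hmax⟩ := exists_max_image
    (univ.filter fun A : Finset V => Closed M X A ∧ A.card < L) card
    ⟨∅, by simp [Closed, hL]⟩
  simp only [mem_filter, mem_univ, true_and] at hA hmax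
  obtain ⟨D, hD, hD1, hD2⟩ : ∃ D : Finset V, Closed M X D ∧ D.card < L ∧
      (univ \ (X ∪ (A ∪ D))).card < L := by
    by_cases e : ∀ d, d ∈ X ∪ A
    · refine ⟨∅, by simp [Closed], by simpa using hL, ?_⟩
      have : univ \ (X ∪ (A ∪ ∅)) = ∅ := by
        ext v
        have := e v
        simp only [union_empty, mem_sdiff, mem_univ, true_and, notMem_empty, iff_false, not_not]
        exact this
      rw [this]
      simpa using hL
    · push Not at e
      obtain ⟨d, hd⟩ := e
      simp only [mem_union, not_or] at hd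
      have c1 := closed_comp M hd.1
      have c2 : Closed M X (A ∪ comp M X d) := by
        refine ⟨fun a ha => ?_, fun h hh => ?_⟩
        · rcases mem_union.mp ha with q | q
          exacts [hA.1.1 a q, c1.1 a q]
        · rcases mem_union.mp hh with q | q
          · exact (hA.1.2 h q).imp_left (mem_union_left _)
          · exact (c1.2 h q).imp_left (mem_union_right _)
      refine ⟨comp M X d, c1, not_le.mp fun q => hcon d ⟨hd.1, q⟩, ?_⟩
      refine (small_or_small M H hX.le c2).resolve_left fun q => ?_
      have q1 := hmax _ ⟨c2, q⟩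
      have q2 : A ⊂ A ∪ comp M X d := Finset.ssubset_iff_subset_ne.mpr ⟨subset_union_left, fun e =>
        hd.2 (by rw [e]; exact mem_union_right _ ((mem_comp M).mpr Relation.ReflTransGen.refl))⟩
      have := card_lt_card q2
      omega
  refine H3 (fun v => if v ∈ X then 3 else if v ∈ A then 0 else if v ∈ D then 1 else 2) ?_ ?_ ?_
  · rw [← hX]
    congr 1
    ext v
    simp only [mem_filter, mem_univ, true_and]
    split_ifs <;> simp [*]
  · intro i hi
    have : i = 0 ∨ i = 1 ∨ i = 2 := by
      revert i
      decide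
    rcases this with rfl | rfl | rfl
    · refine (card_le_card fun v hv => ?_).trans hA.2.le
      simp only [mem_filter, mem_univ, true_and] at hv
      split_ifs at hv <;> simp_all
    · refine (card_le_card fun v hv => ?_).trans hD1.le
      simp only [mem_filter, mem_univ, true_and] at hv
      split_ifs at hv <;> simp_all
    · refine (card_le_card fun v hv => ?_).trans hD2.le
      simp only [mem_filter, mem_univ, true_and] at hv
      split_ifs at hv <;> simp_all
  · intro h
    have a1 := hA.1.2 h
    have a2 := hA.1.2 (M.mu h)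
    have d1 := hD.2 h
    have d2 := hD.2 (M.mu h)
    rw [M.invol] at a2 d2
    by_cases x1 : h.1 ∈ X
    · simp [x1]
    by_cases x2 : (M.mu h).1 ∈ X
    · simp [x2]
    left
    have ea : h.1 ∈ A ↔ (M.mu h).1 ∈ A := by tauto
    have ed : h.1 ∈ D ↔ (M.mu h).1 ∈ D := by tauto
    simp only [x1, x2, if_false, ea, ed]

theorem haven {K L : ℕ} (H : NoBi M K L) (H3 : NoTri M K L) (hL : 0 < L)
    (hK : K ≤ Fintype.card V) : Haven M K (Big M L) := by
  refine ⟨fun X hX => ?_, fun X a b hX ha hb => ?_, big_mono M, fun _ _ h => h.1⟩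
  · obtain ⟨Y, h1, -, h2⟩ := exists_subsuperset_card_eq (subset_univ X) hX (by simpa using hK)
    obtain ⟨a, ha⟩ := exists_big M H H3 hL h2
    exact ⟨a, big_mono M X Y a h1 ha⟩
  · by_contra hne
    rcases small_or_small M H hX (closed_comp M ha.1) with q | q
    · exact absurd ha.2 (not_le.mpr q)
    · refine absurd (hb.2.trans (card_le_card fun c hc => ?_)) (not_le.mpr q)
      rw [mem_comp] at hc
      simp only [mem_sdiff, mem_univ, mem_union, true_and, not_or, mem_comp]
      exact ⟨hc.notin hb.1, fun q => hne (q.trans hc.symm)⟩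

end Pool.Agent.P.MP_f1a348_lc
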