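import Mathlib
import Pool.Agent.P.MP_f1a348_lc.Sep

namespace Pool.Agent.P.MP_f1a348_lc

open Finset
open scoped Nat

section Conf

variable {Hf : Type} [Fintype Hf] [DecidableEq Hf] {N : ℕ}
variable {Γ : Type} [Fintype Γ] [DecidableEq Γ]

/-- The partner of a half-edge in a configuration. -/
def mate (π : Hf ≃ Fin N × Bool) (h : Hf) : Hf := π.symm ((π h).1, !(π h).2)

/-- The number of points with a given colour. -/
def cnt (κ : Hf → Γ) (γ : Γ) : ℕ := (univ.filter fun h => κ h = γ).card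

/-- The colour pattern of a configuration. -/
def pat (κ : Hf → Γ) (π : Hf ≃ Fin N × Bool) : Fin N → Γ × Γ :=
  fun j => (κ (π.symm (j, false)), κ (π.symm (j, true)))

theorem fibre_le (κ : Hf → Γ) (τ : Fin N → Γ × Γ) :
    (univ.filter fun π : Hf ≃ Fin N × Bool => pat κ π = τ).card ≤ ∏ γ, (cnt κ γ)! := by
  rcases (univ.filter fun π : Hf ≃ Fin N × Bool => pat κ π = τ).eq_empty_or_nonempty with h | h
  · rw [h]
    simp
  obtain ⟨π₀, h₀⟩ := h
  have h₀ := (mem_filter.mp h₀).2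
  have e : ∏ γ, (cnt κ γ)! = (univ.filter fun g : Equiv.Perm Hf => κ ∘ g = κ).card := by
    rw [← Fintype.card_subtype, DomMulAct.stabilizer_card]
    refine prod_congr rfl fun γ _ => ?_
    rw [Fintype.card_subtype]
    rfl
  rw [e]
  refine card_le_card_of_injOn (fun π => π₀.trans π.symm) ?_ ?_
  · intro π hπ
    have hπ := (mem_filter.mp (mem_coe.mp hπ)).2
    simp only [coe_filter, mem_univ, true_and, Set.mem_ofPred_eq]
    funext h
    obtain ⟨⟨j, b⟩, rfl⟩ := π₀.symm.surjective h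
    have := congrFun (hπ.trans h₀.symm) j
    simp only [pat, Prod.mk.injEq] at this
    cases b
    · simpa using this.1
    · simpa using this.2
  · intro π _ π' _ h
    ext1 x
    have : π.symm = π'.symm := by
      ext1 z
      have := congrArg (fun g : Hf ≃ Hf => g (π₀.symm z)) h
      simpa using this
    rw [Equiv.symm_bijective.injective this]

theorem count_le (κ : Hf → Γ) (W : Γ → Γ → Prop) [DecidableRel W] (y : Γ → ℝ)
    (hy : ∀ γ, 0 ≤ y γ) :
    ((univ.filter fun π : Hf ≃ Fin N × Bool => ∀ h, W (κ h) (κ (mate π h))).card : ℝ) *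
      ∏ h, y (κ h) ≤ (∏ γ, ((cnt κ γ)! : ℝ)) *
        (∑ a : Γ × Γ, if W a.1 a.2 then y a.1 * y a.2 else 0) ^ N := by
  set w : Γ × Γ → ℝ := fun a => if W a.1 a.2 then y a.1 * y a.2 else 0 with hw
  have w0 : ∀ a, 0 ≤ w a := fun a => by
    simp only [hw]
    split_ifs
    · exact mul_nonneg (hy _) (hy _)
    · exact le_rfl
  have h1 : ((univ.filter fun π : Hf ≃ Fin N × Bool =>
      ∀ h, W (κ h) (κ (mate π h))).card : ℝ) * ∏ h, y (κ h) ≤
      ∑ π : Hf ≃ Fin N × Bool, ∏ j, w (pat κ π j) := by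
    rw [← nsmul_eq_mul, ← sum_const]
    refine le_trans (sum_le_sum fun π hπ => ?_)
      (sum_le_sum_of_subset_of_nonneg (filter_subset _ _) fun π _ _ => prod_nonneg fun j _ => w0 _)
    have hπ := (mem_filter.mp hπ).2
    rw [← Equiv.prod_comp π.symm, Fintype.prod_prod_type]
    refine le_of_eq (prod_congr rfl fun j _ => ?_)
    have := hπ (π.symm (j, false))
    simp only [mate, Equiv.apply_symm_apply, Bool.not_false] at this
    simp [hw, pat, this, mul_comm]
  refine h1.trans ?_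
  rw [← sum_fiberwise univ (pat κ), ← Fin.prod_const, Finset.prod_univ_sum, mul_sum,
    Fintype.piFinset_univ]
  refine sum_le_sum fun τ _ => ?_
  rw [sum_congr rfl (g := fun _ => ∏ j, w (τ j)) (fun π hπ => by rw [(mem_filter.mp hπ).2]),
    sum_const, nsmul_eq_mul]
  refine mul_le_mul_of_nonneg_right ?_ (prod_nonneg fun j _ => w0 _)
  exact_mod_cast fibre_le κ τ

omit [DecidableEq Hf] in
theorem sum_cnt (κ : Hf → Γ) : ∑ γ, cnt κ γ = Fintype.card Hf := by
  unfold cnt
  rw [← card_univ, card_eq_sum_card_fiberwise (f := κ) (t := univ) (fun _ _ => mem_univ _)]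

omit [DecidableEq Hf] in
theorem prod_cnt (κ : Hf → Γ) (y : Γ → ℝ) : ∏ h, y (κ h) = ∏ γ, y γ ^ cnt κ γ := by
  rw [← prod_fiberwise univ κ]
  refine prod_congr rfl fun γ _ => ?_
  rw [prod_congr rfl (g := fun _ => y γ) (fun h hh => by rw [(mem_filter.mp hh).2]), prod_const]
  rfl

end Conf

theorem fact_le (n : ℕ) : (n ! : ℝ) ≤ 3 * (n + 1) * (n / Real.exp 1) ^ n := by
  rcases n with _ | n
  · norm_num
  have h := Stirling.stirlingSeq'_antitone (Nat.zero_le n)
  simp only [Function.comp, Nat.succ_eq_add_one, zero_add, Stirling.stirlingSeq_one] at h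
  unfold Stirling.stirlingSeq at h
  have hp : 0 < (((n + 1 : ℕ) : ℝ) / Real.exp 1) ^ (n + 1) := by positivity
  have hs : 0 < √(2 * ((n + 1 : ℕ) : ℝ)) := by positivity
  rw [div_le_iff₀ (mul_pos hs hp), ← mul_assoc] at h
  refine h.trans (mul_le_mul_of_nonneg_right ?_ hp.le)
  have h1 : Real.exp 1 / √2 ≤ 3 := by
    rw [div_le_iff₀ (by positivity)]
    have := Real.exp_one_lt_d9
    have h2 : (1 : ℝ) ≤ √2 := Real.one_le_sqrt.mpr (by norm_num)
    linarith
  have h2 : √(2 * ((n + 1 : ℕ) : ℝ)) ≤ ((n + 1 : ℕ) : ℝ) + 1 := by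
    rw [Real.sqrt_le_left (by positivity)]
    nlinarith [sq_nonneg ((n + 1 : ℕ) : ℝ)]
  exact mul_le_mul h1 h2 hs.le (by norm_num)

theorem prod_fact_le {Γ : Type} [Fintype Γ] (n : Γ → ℕ) (T : ℕ) (hT : 0 < T)
    (hs : ∑ γ, n γ = T) :
    ∏ γ, ((n γ)! : ℝ) ≤ (3 * (T + 1)) ^ Fintype.card Γ * T ! * ∏ γ, ((n γ : ℝ) / T) ^ n γ := by
  have hT' : (0 : ℝ) < T := by exact_mod_cast hT
  have h1 : ∏ γ, ((n γ)! : ℝ) ≤ ∏ γ, (3 * (T + 1) * ((T / Real.exp 1) ^ n γ *
      ((n γ : ℝ) / T) ^ n γ)) := by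
    refine prod_le_prod (fun _ _ => by positivity) fun γ _ => (fact_le _).trans ?_
    rw [← mul_pow]
    have e : T / Real.exp 1 * ((n γ : ℝ) / T) = n γ / Real.exp 1 := by field_simp
    rw [e]
    have : n γ ≤ T := hs ▸ single_le_sum (fun _ _ => Nat.zero_le _) (mem_univ γ)
    have : (n γ : ℝ) ≤ T := by exact_mod_cast this
    gcongr
  refine h1.trans ?_
  rw [prod_mul_distrib, prod_const, prod_mul_distrib, prod_pow_eq_pow_sum, hs, card_univ,
    mul_assoc ((3 * ((T : ℝ) + 1)) ^ Fintype.card Γ)]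
  have h2 : (T / Real.exp 1) ^ T ≤ (T ! : ℝ) := by
    have := Real.pow_div_factorial_le_exp (T : ℝ) hT'.le T
    rw [div_le_iff₀ (by positivity)] at this
    rw [div_pow, div_le_iff₀ (by positivity), ← Real.exp_nat_mul, mul_one, mul_comm]
    exact this
  gcongr

/-- The first-moment bound. -/
theorem union_le {V S : Type} [Fintype V] [DecidableEq V] [Fintype S] [DecidableEq S] {N : ℕ}
    (col : S → Fin 3 → Fin 4) (W : Fin 4 → Fin 4 → Prop) [DecidableRel W] (T : ℕ) (hT : 0 < T)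
    (hV : Fintype.card (V × Fin 3) = T) (ε : ℝ) (R : (Fin 4 → ℕ) → Prop)
    (hR : ∀ n, R n → ∑ γ, n γ = T → ∃ y q : Fin 4 → ℝ, (∀ γ, 0 < y γ) ∧ (∀ γ, 0 < q γ) ∧
      (∑ a : Fin 4 × Fin 4, if W a.1 a.2 then y a.1 * y a.2 else 0) ≤ 1 ∧
      (∑ s, ∏ i, q (col s i)) ≤ 1 ∧
      ∑ γ, (n γ : ℝ) / T * Real.log ((n γ : ℝ) / T / (y γ * q γ)) ≤ -ε)
    (B : Finset ((V × Fin 3) ≃ Fin N × Bool))
    (hB : ∀ π ∈ B, ∃ χ : V → S, R (cnt fun h : V × Fin 3 => col (χ h.1) h.2) ∧
      ∀ h : V × Fin 3, W (col (χ h.1) h.2) (col (χ (mate π h).1) (mate π h).2)) :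
    (B.card : ℝ) ≤ (T + 1) ^ 4 * ((3 * (T + 1)) ^ 4 * T ! * Real.exp (-ε * T)) := by
  classical
  have hT' : (0 : ℝ) < T := by exact_mod_cast hT
  set κ : (V → S) → V × Fin 3 → Fin 4 := fun χ h => col (χ h.1) h.2 with hκ
  set P : (V → S) → Finset ((V × Fin 3) ≃ Fin N × Bool) := fun χ =>
    univ.filter fun π => ∀ h, W (κ χ h) (κ χ (mate π h)) with hP
  set Z : ℝ := (3 * (T + 1)) ^ 4 * T ! * Real.exp (-ε * T) with hZ
  have Z0 : 0 ≤ Z := by positivity
  set I : Finset (Fin 4 → ℕ) := Fintype.piFinset fun _ => range (T + 1) with hI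
  set C : (Fin 4 → ℕ) → Finset (V → S) := fun n => univ.filter fun χ => cnt (κ χ) = n ∧ R n
    with hC
  have hsub : B ⊆ I.biUnion fun n => (C n).biUnion P := by
    intro π hπ
    obtain ⟨χ, h1, h2⟩ := hB π hπ
    simp only [mem_biUnion]
    refine ⟨cnt (κ χ), ?_, χ, ?_, ?_⟩
    · simp only [hI, Fintype.mem_piFinset, mem_range]
      intro γ
      have : cnt (κ χ) γ ≤ ∑ γ, cnt (κ χ) γ :=
        single_le_sum (fun _ _ => Nat.zero_le _) (mem_univ γ)
      rw [sum_cnt, hV] at this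
      omega
    · simp only [hC, mem_filter, mem_univ, true_and]
      exact h1
    · simp only [hP, mem_filter, mem_univ, true_and]
      exact h2
  have hcls : ∀ n, (((C n).biUnion P).card : ℝ) ≤ Z := by
    intro n
    rcases (C n).eq_empty_or_nonempty with h | ⟨χ₀, h₀⟩
    · rw [h]
      simpa using Z0
    have h₀ := (mem_filter.mp h₀).2
    have hs : ∑ γ, n γ = T := by rw [← h₀.1, sum_cnt, hV]
    obtain ⟨y, q, hy, hq, hQ, hq1, hψ⟩ := hR n h₀.2 hs
    have key : ∀ χ ∈ C n, ((P χ).card : ℝ) ≤ Z * ∏ v, ∏ i, q (col (χ v) i) := by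
      intro χ hχ
      have hχ := (mem_filter.mp hχ).2.1
      have a1 := count_le (N := N) (κ χ) W y fun γ => (hy γ).le
      have a2 : (∑ a : Fin 4 × Fin 4, if W a.1 a.2 then y a.1 * y a.2 else 0) ^ N ≤ 1 := by
        refine pow_le_one₀ (sum_nonneg fun a _ => ?_) hQ
        split_ifs
        · exact (mul_pos (hy _) (hy _)).le
        · exact le_rfl
      have a3 := prod_fact_le n T hT hs
      have a4 : ∏ v, ∏ i, q (col (χ v) i) = ∏ γ, q γ ^ n γ := by
        rw [← hχ, ← prod_cnt, Fintype.prod_prod_type]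
      have a5 : ∏ γ, ((n γ : ℝ) / T) ^ n γ ≤
          Real.exp (-ε * T) * ((∏ γ, q γ ^ n γ) * ∏ γ, y γ ^ n γ) := by
        have e1 : ∀ γ, ((n γ : ℝ) / T) ^ n γ = Real.exp (T * ((n γ : ℝ) / T *
            Real.log ((n γ : ℝ) / T / (y γ * q γ)))) * (q γ ^ n γ * y γ ^ n γ) := by
          intro γ
          have := hy γ
          have := hq γ
          rcases Nat.eq_zero_or_pos (n γ) with h | h
          · simp [h]
          have h' : (0 : ℝ) < n γ := by exact_mod_cast h
          rw [← mul_assoc (T : ℝ), mul_div_cancel₀ _ hT'.ne', Real.exp_nat_mul,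
            Real.exp_log (by positivity), ← mul_pow, ← mul_pow]
          congr 1
          field_simp
        rw [prod_congr rfl fun γ _ => e1 γ, prod_mul_distrib, prod_mul_distrib, ← Real.exp_sum,
          ← mul_sum]
        refine mul_le_mul_of_nonneg_right (Real.exp_le_exp.mpr ?_) (mul_nonneg
          (prod_nonneg fun γ _ => pow_nonneg (hq γ).le _)
          (prod_nonneg fun γ _ => pow_nonneg (hy γ).le _))
        nlinarith
      have ypos : 0 < ∏ γ, y γ ^ n γ := prod_pos fun γ _ => pow_pos (hy γ) _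
      rw [prod_cnt, hχ] at a1
      rw [a4]
      refine le_of_mul_le_mul_right ?_ ypos
      refine a1.trans ?_
      have f0 : 0 ≤ ∏ γ, ((n γ)! : ℝ) := by positivity
      refine (mul_le_of_le_one_right f0 a2).trans (a3.trans ?_)
      rw [hZ, Fintype.card_fin]
      calc _ ≤ (3 * ((T : ℝ) + 1)) ^ 4 * T ! *
          (Real.exp (-ε * T) * ((∏ γ, q γ ^ n γ) * ∏ γ, y γ ^ n γ)) := by gcongr
        _ = _ := by ring
    have b1 : (((C n).biUnion P).card : ℝ) ≤ ∑ χ ∈ C n, ((P χ).card : ℝ) := by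
      exact_mod_cast card_biUnion_le
    refine b1.trans ((sum_le_sum key).trans ?_)
    rw [← mul_sum]
    refine mul_le_of_le_one_right Z0 ?_
    have q0 : ∀ s, 0 ≤ ∏ i, q (col s i) := fun s => prod_nonneg fun i _ => (hq _).le
    refine (sum_le_sum_of_subset_of_nonneg (subset_univ _)
      fun χ _ _ => prod_nonneg fun v _ => q0 _).trans ?_
    rw [← Fintype.piFinset_univ, ← Finset.prod_univ_sum (fun _ : V => (univ : Finset S))
      (fun _ s => ∏ i, q (col s i))]
    exact prod_le_one (fun _ _ => sum_nonneg fun s _ => q0 s) fun _ _ => hq1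
  have c1 : (B.card : ℝ) ≤ ∑ n ∈ I, (((C n).biUnion P).card : ℝ) := by
    exact_mod_cast (card_le_card hsub).trans card_biUnion_le
  refine c1.trans ((sum_le_sum fun n _ => hcls n).trans ?_)
  rw [sum_const, nsmul_eq_mul, hI, Fintype.card_piFinset]
  simp

end Pool.Agent.P.MP_f1a348_lc
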