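import Mathlib
import Pool.Agent.P.MP_f1a348_lc.Count
import Pool.Agent.P.MP_f1a348_lc.Data

namespace Pool.Agent.P.MP_f1a348_lc

open Finset
open scoped Nat

/-- The cubic multigraph of a configuration. -/
def cubicOf {V : Type} {N : ℕ} (π : (V × Fin 3) ≃ Fin N × Bool) : Cubic V where
  mu := mate π
  invol := fun h => by simp [mate]
  ne := fun h e => by
    have := congrArg (fun g => (π g).2) e
    simp [mate] at this

def colBi (s : Bool × Option (Fin 3)) (i : Fin 3) : Fin 4 :=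
  if s.1 = true then (if s.2 = some i then 1 else 0) else (if s.2 = some i then 3 else 2)

def WBi (a b : Fin 4) : Prop := (a = 0 ∧ b = 0) ∨ (a = 2 ∧ b = 2) ∨ (a = 1 ∧ b = 3) ∨ (a = 3 ∧ b = 1)

instance : DecidableRel WBi := fun a b => by unfold WBi; infer_instance

def RBi (K L : ℕ) (n : Fin 4 → ℕ) : Prop :=
  n 1 = n 3 ∧ ∃ d, 2 * n 1 + d ≤ 2 * K ∧ 3 * L ≤ n 0 + n 1 + 3 * d ∧ 3 * L ≤ n 2 + n 3 + 3 * d

def WTri (a b : Fin 4) : Prop := a = b ∨ a = 3 ∨ b = 3

instance : DecidableRel WTri := fun a b => by unfold WTri; infer_instance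

def RTri (K L : ℕ) (n : Fin 4 → ℕ) : Prop :=
  n 3 = 3 * K ∧ n 0 ≤ 3 * L ∧ n 1 ≤ 3 * L ∧ n 2 ≤ 3 * L

section

variable {V : Type} [Fintype V] [DecidableEq V]

omit [DecidableEq V] in
theorem card_half (p : V → Prop) [DecidablePred p] :
    (univ.filter fun h : V × Fin 3 => p h.1).card = 3 * (univ.filter p).card := by
  have : (univ.filter fun h : V × Fin 3 => p h.1) = (univ.filter p) ×ˢ (univ : Finset (Fin 3)) := by
    ext h
    simp
  rw [this, card_product, mul_comm]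
  simp

theorem of_not_noBi (M : Cubic V) {K L : ℕ} (h : ¬ NoBi M K L) :
    ∃ χ : V → Bool × Option (Fin 3), RBi K L (cnt fun h : V × Fin 3 => colBi (χ h.1) h.2) ∧
      ∀ h : V × Fin 3, WBi (colBi (χ h.1) h.2) (colBi (χ (M.mu h).1) (M.mu h).2) := by
  classical
  unfold NoBi at h
  push Not at h
  obtain ⟨σ, hσ, d, h1, h2, h3, -⟩ := h
  let χ : V → Bool × Option (Fin 3) := fun v =>
    (σ v, if h : ∃ i, (v, i) ∈ cross M σ then some h.choose else none)
  have hχ : ∀ h : V × Fin 3, (χ h.1).2 = some h.2 ↔ h ∈ cross M σ := by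
    rintro ⟨v, i⟩
    simp only [χ]
    split_ifs with e
    · constructor
      · intro q
        rw [← Option.some.inj q]
        exact e.choose_spec
      · intro q
        rw [hσ v _ _ e.choose_spec q]
    · simp only [reduceCtorEq, false_iff]
      exact fun q => e ⟨i, q⟩
  have hc : ∀ h : V × Fin 3, colBi (χ h.1) h.2 = if σ h.1 = true then
      (if h ∈ cross M σ then 1 else 0) else (if h ∈ cross M σ then 3 else 2) := by
    intro h
    simp only [colBi, hχ]
    rfl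
  have hm : ∀ h, M.mu h ∈ cross M σ ↔ h ∈ cross M σ := fun h =>
    ⟨fun q => by simpa [M.invol] using mu_mem_cross M q, mu_mem_cross M⟩
  refine ⟨χ, ?_, fun h => ?_⟩
  · simp only [hc]
    set κ : V × Fin 3 → Fin 4 := fun h => if σ h.1 = true then
      (if h ∈ cross M σ then 1 else 0) else (if h ∈ cross M σ then 3 else 2) with hκ
    have e13 : cnt κ 1 = cnt κ 3 := by
      refine card_bij' (fun h _ => M.mu h) (fun h _ => M.mu h) ?_ ?_ (fun h _ => M.invol h)
        (fun h _ => M.invol h)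
      · intro h hh
        simp only [mem_filter, mem_univ, true_and, hκ, hm] at hh ⊢
        have := mem_cross M (σ := σ) (h := h)
        by_cases q : h ∈ cross M σ <;> cases q1 : σ h.1 <;> cases q2 : σ (M.mu h).1 <;> simp_all
      · intro h hh
        simp only [mem_filter, mem_univ, true_and, hκ, hm] at hh ⊢
        have := mem_cross M (σ := σ) (h := h)
        by_cases q : h ∈ cross M σ <;> cases q1 : σ h.1 <;> cases q2 : σ (M.mu h).1 <;> simp_all
    have s13 : cnt κ 1 + cnt κ 3 = (cross M σ).card := by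
      unfold cnt
      rw [← card_union_of_disjoint (disjoint_filter.mpr fun h _ a b => by simp [a] at b)]
      congr 1
      ext h
      simp only [mem_union, mem_filter, mem_univ, true_and, hκ]
      by_cases q : h ∈ cross M σ <;> cases q1 : σ h.1 <;> simp [q]
    have s01 : cnt κ 0 + cnt κ 1 = 3 * (univ.filter fun v => σ v = true).card := by
      unfold cnt
      rw [← card_union_of_disjoint (disjoint_filter.mpr fun h _ a b => by simp [a] at b),
        ← card_half]
      congr 1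
      ext h
      simp only [mem_union, mem_filter, mem_univ, true_and, hκ]
      by_cases q : h ∈ cross M σ <;> cases q1 : σ h.1 <;> simp [q]
    have s23 : cnt κ 2 + cnt κ 3 = 3 * (univ.filter fun v => σ v = false).card := by
      unfold cnt
      rw [← card_union_of_disjoint (disjoint_filter.mpr fun h _ a b => by simp [a] at b),
        ← card_half]
      congr 1
      ext h
      simp only [mem_union, mem_filter, mem_univ, true_and, hκ]
      by_cases q : h ∈ cross M σ <;> cases q1 : σ h.1 <;> simp [q]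
    exact ⟨e13, d, by omega, by omega, by omega⟩
  · rw [hc, hc]
    simp only [hm]
    have := mem_cross M (σ := σ) (h := h)
    by_cases q : h ∈ cross M σ <;> cases q1 : σ h.1 <;> cases q2 : σ (M.mu h).1 <;>
      simp_all [WBi]

omit [DecidableEq V] in
theorem of_not_noTri (M : Cubic V) {K L : ℕ} (h : ¬ NoTri M K L) :
    ∃ χ : V → Fin 4, RTri K L (cnt fun h : V × Fin 3 => χ h.1) ∧
      ∀ h : V × Fin 3, WTri (χ h.1) (χ (M.mu h).1) := by
  unfold NoTri at h
  push Not at h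
  obtain ⟨χ, h1, h2, h3, -⟩ := h
  have e : ∀ γ, cnt (fun h : V × Fin 3 => χ h.1) γ = 3 * (univ.filter fun v => χ v = γ).card :=
    fun γ => card_half fun v => χ v = γ
  refine ⟨χ, ⟨by rw [e, h1], ?_, ?_, ?_⟩, h3⟩
  · rw [e]
    exact Nat.mul_le_mul_left 3 (h2 0 (by decide))
  · rw [e]
    exact Nat.mul_le_mul_left 3 (h2 1 (by decide))
  · rw [e]
    exact Nat.mul_le_mul_left 3 (h2 2 (by decide))

end

theorem tilt_bi (M : ℕ) (hM : 0 < M) (n : Fin 4 → ℕ) (hn : RBi (937 * M) (3940 * M) n)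
    (hs : ∑ γ, n γ = 30000 * M) :
    ∃ y q : Fin 4 → ℝ, (∀ γ, 0 < y γ) ∧ (∀ γ, 0 < q γ) ∧
      (∑ a : Fin 4 × Fin 4, if WBi a.1 a.2 then y a.1 * y a.2 else 0) ≤ 1 ∧
      (∑ s, ∏ i, q (colBi s i)) ≤ 1 ∧
      ∑ γ, (n γ : ℝ) / (30000 * M : ℕ) * Real.log ((n γ : ℝ) / (30000 * M : ℕ) / (y γ * q γ)) ≤
        -(1 / 100000) := by
  obtain ⟨e, d, h1, h2, h3⟩ := hn
  rw [Fin.sum_univ_four] at hs
  have hT : (0 : ℝ) < (30000 * M : ℕ) := by positivity
  have a1 : 6198 * M + 5 * n 1 ≤ n 0 := by omega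
  have a2 : 6198 * M + n 0 + 7 * n 1 ≤ 30000 * M := by omega
  have a3 : n 1 ≤ 937 * M := by omega
  have a1' : (6198 * M + 5 * n 1 : ℝ) ≤ n 0 := by exact_mod_cast a1
  have a2' : (6198 * M + n 0 + 7 * n 1 : ℝ) ≤ 30000 * M := by exact_mod_cast a2
  have a3' : (n 1 : ℝ) ≤ 937 * M := by exact_mod_cast a3
  have hs' : (n 0 + n 1 + n 2 + n 3 : ℝ) = 30000 * M := by exact_mod_cast hs
  have e' : (n 1 : ℝ) = n 3 := by exact_mod_cast e
  have n1 : (0 : ℝ) ≤ n 1 := Nat.cast_nonneg _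
  set x : ℝ := n 0 / (30000 * M : ℕ) with hx
  set y : ℝ := n 1 / (30000 * M : ℕ) with hy
  have hx' : (n 0 : ℝ) = x * (30000 * M) := by
    rw [hx]
    push_cast at hT ⊢
    field_simp
  have hy' : (n 1 : ℝ) = y * (30000 * M) := by
    rw [hy]
    push_cast at hT ⊢
    field_simp
  have hM' : (0 : ℝ) < M := by exact_mod_cast hM
  have y0 : 0 ≤ y := by positivity
  have b1 : 2066 / 10000 + 5 * y ≤ x := by nlinarith
  have b2 : 2066 / 10000 + x + 7 * y ≤ 1 := by nlinarith
  have b3 : y ≤ 937 / 30000 := by nlinarith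
  obtain ⟨D, hp, hv, hg⟩ := chk_sound (x := x) (y := y) (o := oBi) (by
    intro x0 x1 y0 y1 h c0 c1 d0 d1
    simp only [oBi, Bool.or_eq_true, decide_eq_true_eq] at h
    rcases h with h | h
    · have := (Rat.cast_lt (K := ℝ)).mpr h
      push_cast at this
      linarith
    · have := (Rat.cast_lt (K := ℝ)).mpr h
      push_cast at this
      linarith) _ _ _ _ _ chk_bi (by push_cast; linarith) (by push_cast; linarith)
    (by push_cast; linarith) (by push_cast; linarith)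
  simp only [vBi, Bool.and_eq_true, decide_eq_true_eq] at hv
  have v1 : (D.y0 * D.y0 + D.y2 * D.y2 + 2 * D.y1 * D.y3 : ℝ) ≤ 10000000 ^ 2 := by
    exact_mod_cast hv.1
  have v2 : (D.q0 ^ 3 + 3 * D.q0 ^ 2 * D.q1 + D.q2 ^ 3 + 3 * D.q2 ^ 2 * D.q3 : ℝ) ≤
      10000000 ^ 3 := by exact_mod_cast hv.2
  refine ⟨D.y, D.q, Dt.y_pos hp, Dt.q_pos hp, ?_, ?_, ?_⟩
  · simp [Fintype.sum_prod_type, Fin.sum_univ_four, WBi, Dt.y]
    linarith
  · simp [Fintype.sum_prod_type, Fintype.sum_option, Fin.sum_univ_three, Fin.prod_univ_three,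
      colBi, Dt.q]
    linarith
  · have := hg.2
    have w : ∀ γ, (n γ : ℝ) / (30000 * M : ℕ) = wv ((0 : ℚ) : ℝ) ((1 : ℚ) : ℝ) x y γ := by
      intro γ
      fin_cases γ
      · rfl
      · rfl
      · show (n 2 : ℝ) / _ = 1 - x - y - (((0 : ℚ) : ℝ) + ((1 : ℚ) : ℝ) * y)
        rw [div_eq_iff hT.ne']
        push_cast
        linarith
      · show (n 3 : ℝ) / _ = ((0 : ℚ) : ℝ) + ((1 : ℚ) : ℝ) * y
        rw [div_eq_iff hT.ne']
        push_cast
        linarith
    simp only [w]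
    simpa using this

theorem tilt_tri (M : ℕ) (hM : 0 < M) (n : Fin 4 → ℕ) (hn : RTri (937 * M) (3940 * M) n)
    (hs : ∑ γ, n γ = 30000 * M) :
    ∃ y q : Fin 4 → ℝ, (∀ γ, 0 < y γ) ∧ (∀ γ, 0 < q γ) ∧
      (∑ a : Fin 4 × Fin 4, if WTri a.1 a.2 then y a.1 * y a.2 else 0) ≤ 1 ∧
      (∑ s : Fin 4, ∏ _i : Fin 3, q s) ≤ 1 ∧
      ∑ γ, (n γ : ℝ) / (30000 * M : ℕ) * Real.log ((n γ : ℝ) / (30000 * M : ℕ) / (y γ * q γ)) ≤
        -(1 / 100000) := by
  obtain ⟨e, h1, h2, h3⟩ := hn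
  rw [Fin.sum_univ_four] at hs
  have hT : (0 : ℝ) < (30000 * M : ℕ) := by positivity
  have a1 : n 0 ≤ 11820 * M := by omega
  have a2 : n 1 ≤ 11820 * M := by omega
  have a3 : 15369 * M ≤ n 0 + n 1 := by omega
  have a4 : n 3 = 2811 * M := by omega
  have a1' : (n 0 : ℝ) ≤ 11820 * M := by exact_mod_cast a1
  have a2' : (n 1 : ℝ) ≤ 11820 * M := by exact_mod_cast a2
  have a3' : (15369 * M : ℝ) ≤ n 0 + n 1 := by exact_mod_cast a3
  have a4' : (n 3 : ℝ) = 2811 * M := by exact_mod_cast a4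
  have hs' : (n 0 + n 1 + n 2 + n 3 : ℝ) = 30000 * M := by exact_mod_cast hs
  set x : ℝ := n 0 / (30000 * M : ℕ) with hx
  set y : ℝ := n 1 / (30000 * M : ℕ) with hy
  have hx' : (n 0 : ℝ) = x * (30000 * M) := by
    rw [hx]
    push_cast at hT ⊢
    field_simp
  have hy' : (n 1 : ℝ) = y * (30000 * M) := by
    rw [hy]
    push_cast at hT ⊢
    field_simp
  have hM' : (0 : ℝ) < M := by exact_mod_cast hM
  have b1 : x ≤ 3940 / 10000 := by nlinarith
  have b2 : y ≤ 3940 / 10000 := by nlinarith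
  have b3 : 5123 / 10000 ≤ x + y := by nlinarith
  obtain ⟨D, hp, hv, hg⟩ := chk_sound (x := x) (y := y) (o := oTri) (by
    intro x0 x1 y0 y1 h c0 c1 d0 d1
    simp only [oTri, decide_eq_true_eq] at h
    have := (Rat.cast_lt (K := ℝ)).mpr h
    push_cast at this
    linarith) _ _ _ _ _ chk_tri (by push_cast; linarith) (by push_cast; linarith)
    (by push_cast; linarith) (by push_cast; linarith)
  simp only [vTri, Bool.and_eq_true, decide_eq_true_eq] at hv
  have v1 : (D.y0 * D.y0 + D.y1 * D.y1 + D.y2 * D.y2 + D.y3 * D.y3 +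
      2 * D.y3 * (D.y0 + D.y1 + D.y2) : ℝ) ≤ 10000000 ^ 2 := by exact_mod_cast hv.1
  have v2 : (D.q0 ^ 3 + D.q1 ^ 3 + D.q2 ^ 3 + D.q3 ^ 3 : ℝ) ≤ 10000000 ^ 3 := by
    exact_mod_cast hv.2
  refine ⟨D.y, D.q, Dt.y_pos hp, Dt.q_pos hp, ?_, ?_, ?_⟩
  · simp [Fintype.sum_prod_type, Fin.sum_univ_four, WTri, Dt.y]
    linarith
  · simp [Fin.sum_univ_four, Dt.q]
    linarith
  · have := hg.2
    have w : ∀ γ, (n γ : ℝ) / (30000 * M : ℕ) =
        wv ((937 / 10000 : ℚ) : ℝ) ((0 : ℚ) : ℝ) x y γ := by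
      intro γ
      fin_cases γ
      · rfl
      · rfl
      · show (n 2 : ℝ) / _ = 1 - x - y - (((937 / 10000 : ℚ) : ℝ) + ((0 : ℚ) : ℝ) * y)
        rw [div_eq_iff hT.ne']
        push_cast
        linarith
      · show (n 3 : ℝ) / _ = ((937 / 10000 : ℚ) : ℝ) + ((0 : ℚ) : ℝ) * y
        rw [div_eq_iff hT.ne']
        push_cast
        linarith
    simp only [w]
    simpa using this

theorem small_eventually : ∃ T₀ : ℕ, ∀ T ≥ T₀,
    ((T : ℝ) + 1) ^ 4 * ((3 * ((T : ℝ) + 1)) ^ 4 * Real.exp (-(1 / 100000) * T)) < 1 / 2 := by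
  have h := (isLittleO_pow_exp_pos_mul_atTop 8 (b := 1 / 100000) (by norm_num)).def
    (c := 1 / 100000) (by norm_num)
  have h2 := tendsto_natCast_atTop_atTop (R := ℝ) |>.eventually h
  obtain ⟨T₀, hT⟩ := Filter.eventually_atTop.mp h2
  refine ⟨max T₀ 1, fun T hT' => ?_⟩
  have h3 := hT T (le_of_max_le_left hT')
  have h4 : (1 : ℝ) ≤ T := by exact_mod_cast le_of_max_le_right hT'
  rw [Real.norm_of_nonneg (by positivity), Real.norm_of_nonneg (by positivity)] at h3
  have h5 : ((T : ℝ) + 1) ^ 8 ≤ (2 * T) ^ 8 := by gcongr; linarith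
  have h6 : Real.exp (1 / 100000 * T) * Real.exp (-(1 / 100000) * T) = 1 := by
    rw [← Real.exp_add]
    simp
  have h7 := Real.exp_pos (-(1 / 100000) * (T : ℝ))
  calc _ = 81 * ((T : ℝ) + 1) ^ 8 * Real.exp (-(1 / 100000) * T) := by ring
    _ ≤ 81 * (256 * (1 / 100000 * Real.exp (1 / 100000 * T))) *
        Real.exp (-(1 / 100000) * T) := by
      gcongr
      linarith
    _ = 81 * 256 / 100000 * (Real.exp (1 / 100000 * T) * Real.exp (-(1 / 100000) * T)) := by ring
    _ < 1 / 2 := by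
      rw [h6]
      norm_num

theorem exists_cubic : ∃ M₀ : ℕ, ∀ M ≥ M₀, ∃ G : Cubic (Fin (10000 * M)),
    NoBi G (937 * M) (3940 * M) ∧ NoTri G (937 * M) (3940 * M) := by
  classical
  obtain ⟨T₀, hT⟩ := small_eventually
  refine ⟨max T₀ 1, fun M hM => ?_⟩
  have hM0 : 0 < M := le_of_max_le_right hM
  have hM1 : T₀ ≤ M := le_of_max_le_left hM
  have hs := hT (30000 * M) (by omega)
  have hV : Fintype.card (Fin (10000 * M) × Fin 3) = 30000 * M := by
    simp only [Fintype.card_prod, Fintype.card_fin]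
    omega
  have hE : Fintype.card (Fin (15000 * M) × Bool) = 30000 * M := by
    simp only [Fintype.card_prod, Fintype.card_fin, Fintype.card_bool]
    omega
  have hΩ : Fintype.card ((Fin (10000 * M) × Fin 3) ≃ Fin (15000 * M) × Bool) = (30000 * M)! := by
    rw [Fintype.card_equiv (Fintype.equivOfCardEq (hV.trans hE.symm)), hV]
  have b1 := union_le (N := 15000 * M) colBi WBi (30000 * M) (by omega) hV (1 / 100000)
    (RBi (937 * M) (3940 * M)) (tilt_bi M hM0)
    (univ.filter fun π => ¬ NoBi (cubicOf π) (937 * M) (3940 * M))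
    (fun π hπ => of_not_noBi (cubicOf π) (mem_filter.mp hπ).2)
  have b2 := union_le (N := 15000 * M) (fun (s : Fin 4) (_ : Fin 3) => s) WTri (30000 * M)
    (by omega) hV (1 / 100000) (RTri (937 * M) (3940 * M)) (tilt_tri M hM0)
    (univ.filter fun π => ¬ NoTri (cubicOf π) (937 * M) (3940 * M))
    (fun π hπ => of_not_noTri (cubicOf π) (mem_filter.mp hπ).2)
  by_contra hne
  have hsub : (univ : Finset ((Fin (10000 * M) × Fin 3) ≃ Fin (15000 * M) × Bool)) ⊆
      (univ.filter fun π => ¬ NoBi (cubicOf π) (937 * M) (3940 * M)) ∪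
      (univ.filter fun π => ¬ NoTri (cubicOf π) (937 * M) (3940 * M)) := by
    intro π _
    simp only [mem_union, mem_filter, mem_univ, true_and]
    by_contra q
    push Not at q
    exact hne ⟨cubicOf π, q⟩
  have c1 := (card_le_card hsub).trans (card_union_le _ _)
  rw [card_univ, hΩ] at c1
  have c2 := (Nat.cast_le (α := ℝ)).mpr c1
  rw [Nat.cast_add] at c2
  have f0 : (0 : ℝ) < ((30000 * M)! : ℕ) := by positivity
  have c3 := mul_lt_mul_of_pos_right hs f0
  nlinarith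

theorem main : ∃ n₀ : ℕ, ∀ n ≥ n₀, ∃ G H : SimpleGraph (Fin n), IsEmpty (G ≃g H) ∧
    ∀ k : ℕ, (k : ℝ) ≤ 0.0234 * n → ¬ WLDistinguishes k G H := by
  obtain ⟨M₀, hM⟩ := exists_cubic
  refine ⟨40000 * (M₀ + 937), fun n hn => ?_⟩
  have h1 : M₀ + 937 ≤ n / 40000 := by omega
  set M := n / 40000 with hMd
  obtain ⟨G, g1, g2⟩ := hM M (by omega)
  have hH := haven G g1 g2 (by omega) (by simp only [Fintype.card_fin]; omega)
  obtain ⟨v₀, hv⟩ := hH.ex ∅ (by simp)
  have hc : Fintype.card (Fin n) = Fintype.card (Vtx (Fin (10000 * M)) (n % 40000)) := by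
    simp only [Fintype.card_fin, Fintype.card_sum, Fintype.card_prod, ZMod.card]
    omega
  let e := Fintype.equivOfCardEq hc
  refine ⟨(cfi G 0 _).comap e, (cfi G (Pi.single v₀ 1) _).comap e, ⟨fun f => ?_⟩, fun k hk => ?_⟩
  · exact (cfi_not_iso G v₀ (n % 40000)).false
      (((SimpleGraph.Iso.comap e _).symm.trans f).trans (SimpleGraph.Iso.comap e _))
  · have h2 : (10000 * k : ℝ) ≤ 234 * n := by linarith
    have h3 : 10000 * k ≤ 234 * n := by exact_mod_cast h2
    exact (cfi_bisim G hH hv _ k (by omega)).not_distinguishes e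

end Pool.Agent.P.MP_f1a348_lc
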